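import Mathlib

set_option autoImplicit false

/-!
Structure constants of a finite superalgebra.
-/

namespace Pool.Agent.H772R4.AltData

/-- rows of a multiplication table -/
abbrev Row : Type := List (ℕ × List (ℕ × ℕ))

def r0 : Row := [(1, [(4, 1)]), (2, [(7, 1)]), (5, [(13, 1)]), (8, [(18, 1)]), (9, [(19, 1)]), (10, [(25, 1)]), (20, [(30, 2), (31, 2), (33, 2), (34, 1)]), (21, [(29, 1), (30, 1), (34, 1)]), (22, [(30, 2), (31, 2), (33, 2), (35, 1)]), (26, [(39, 2), (40, 2)]), (27, [(36, 2), (37, 1), (38, 2), (39, 1), (40, 1), (41, 1)]), (28, [(36, 1), (37, 1), (38, 2), (40, 1), (41, 2), (42, 1)]), (43, [(45, 2)]), (48, [(52, 1)]), (49, [(53, 1)]), (50, [(58, 1)]), (51, [(59, 1)]), (55, [(69, 2)]), (56, [(70, 2)]), (57, [(70, 2)]), (61, [(77, 1)]), (62, [(73, 2), (74, 2), (75, 2)]), (63, [(78, 1)]), (64, [(73, 1), (74, 2)]), (65, [(73, 2), (75, 1)]), (66, [(88, 1)]), (67, [(86, 1)]), (68, [(86, 2)]),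 (79, [(95, 2)]), (80, [(95, 1), (96, 1)]), (81, [(96, 1)]), (83, [(95, 2), (96, 2)]), (84, [(95, 1), (96, 2)]), (90, [(98, 1)]), (91, [(97, 2)]), (92, [(97, 1), (98, 1)]), (93, [(97, 2), (98, 2)]), (100, [(101, 1)])]
def r1 : Row := [(0, [(3, 1)]), (1, [(5, 1)]), (2, [(9, 1)]), (3, [(11, 1)]), (4, [(12, 1)]), (6, [(16, 1)]), (7, [(17, 1)]), (8, [(21, 1)]), (9, [(22, 1)]), (10, [(28, 1)]), (14, [(32, 1)]), (15, [(33, 1)]), (16, [(34, 1)]), (17, [(35, 1)]), (18, [(29, 1), (31, 2), (33, 2), (34, 2), (35, 2)]), (19, [(29, 1), (30, 1), (31, 2), (33, 2), (34, 1), (35, 1)]), (23, [(39, 2), (40, 2)]), (24, [(41, 1)]), (25, [(42, 1)]), (26, [(43, 2)]), (28, [(43, 1), (44, 2)]), (36, [(45, 2)]), (37, [(45, 2)]), (39, [(45, 1), (46, 1)]), (41, [(45, 1), (46, 1)]), (42, [(45, 2), (46, 1)]), (47, [(48, 1)]), (48, [(55, 1)]), (50, [(63, 1)]), (51, [(64, 1)]), (52, [(69, 1)]), (53, [(70, 1)]), (58, [(72, 1)]), (59,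 [(73, 1), (74, 1)]), (60, [(73, 2)]), (61, [(84, 1)]), (62, [(81, 1)]), (63, [(79, 2), (80, 1), (81, 1), (82, 2), (83, 2)]), (64, [(80, 2)]), (65, [(80, 1), (82, 1)]), (66, [(89, 2), (90, 2), (91, 2), (94, 1)]), (67, [(92, 1)]), (68, [(93, 1)]), (72, [(95, 1)]), (73, [(95, 2), (96, 2)]), (74, [(96, 2)]), (76, [(96, 1)]), (77, [(95, 2), (96, 2)]), (78, [(95, 2), (96, 1)]), (86, [(97, 1), (98, 2)]), (87, [(97, 1)]), (90, [(100, 1)]), (91, [(99, 2)]), (92, [(99, 2)]), (93, [(99, 1)]), (94, [(100, 1)]), (98, [(101, 2)])]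
def r2 : Row := [(0, [(6, 1)]), (1, [(8, 1)]), (2, [(10, 1)]), (3, [(14, 1)]), (4, [(15, 1)]), (5, [(20, 1)]), (6, [(23, 1)]), (7, [(24, 1)]), (8, [(26, 1)]), (9, [(27, 1)]), (11, [(29, 1)]), (12, [(30, 1)]), (13, [(31, 1)]), (14, [(36, 1)]), (15, [(37, 1)]), (16, [(38, 1)]), (17, [(39, 1)]), (18, [(40, 1)]), (19, [(36, 2), (38, 2), (39, 1), (40, 2)]), (20, [(43, 1)]), (21, [(44, 1)]), (22, [(43, 2)]), (29, [(45, 1)]), (30, [(45, 1)]), (31, [(46, 1)]), (32, [(45, 2), (46, 1)]), (33, [(46, 1)]), (34, [(45, 2)]), (35, [(45, 2), (46, 2)]), (47, [(50, 1)]), (48, [(61, 1)]), (50, [(66, 1)]), (51, [(67, 1)]), (52, [(72, 1)]), (53, [(73, 1)]), (54, [(74, 1)]), (55, [(79, 1)]), (56, [(80, 1)]), (57, [(81, 1)]), (58, [(85, 1)]), (59, [(86, 1)]), (60, [(86, 2)]), (61, [(89, 1)]), (62, [(90, 1)]), (63, [(91, 1)]), (64, [(92, 1)]), (65, [(93, 1)]), (69, [(95, 1)]), (70, [(95, 2)]), (71, [(96, 1)]), (73, [(97,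 1)]), (74, [(98, 1)]), (76, [(98, 1)]), (79, [(99, 1)]), (80, [(99, 1)]), (81, [(100, 1)]), (83, [(100, 1)]), (84, [(99, 2)]), (95, [(101, 2)]), (96, [(101, 2)])]
def r3 : Row := [(1, [(12, 1)]), (2, [(17, 1)]), (8, [(29, 1), (31, 2), (33, 2), (34, 2), (35, 2)]), (9, [(29, 1), (30, 1), (31, 2), (33, 2), (34, 1), (35, 1)]), (10, [(42, 1)]), (26, [(45, 2), (46, 2)]), (27, [(45, 2), (46, 2)]), (28, [(45, 2)]), (47, [(53, 1)]), (48, [(69, 1)]), (49, [(70, 1)]), (50, [(72, 1), (75, 2)]), (51, [(73, 1), (74, 2)]), (61, [(95, 2), (96, 2)]), (62, [(95, 1), (96, 2)]), (64, [(95, 2)]), (65, [(95, 1), (96, 2)]), (66, [(97, 1)]), (67, [(97, 1), (98, 2)]), (68, [(97, 2)]), (90, [(101, 2)]), (91, [(101, 1)]), (92, [(101, 2)]), (93, [(101, 1)])]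
def r4 : Row := [(1, [(13, 1)]), (2, [(19, 1)]), (8, [(29, 1), (30, 1), (34, 1)]), (9, [(30, 2), (31, 2), (33, 2), (35, 1)]), (10, [(36, 1), (37, 1), (38, 2), (40, 1), (41, 2), (42, 1)]), (26, [(45, 1)]), (28, [(45, 2)]), (47, [(52, 1), (53, 1)]), (48, [(69, 2)]), (50, [(75, 2), (78, 1)]), (51, [(73, 1)]), (61, [(95, 1), (96, 2)]), (62, [(96, 1)]), (63, [(95, 1), (96, 2)]), (64, [(95, 2), (96, 2)]), (65, [(95, 1), (96, 2)]), (66, [(97, 2), (98, 2)]), (67, [(97, 1), (98, 1)]), (68, [(97, 2), (98, 1)]), (90, [(101, 1)]), (91, [(101, 1)]), (94, [(101, 1)])]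
def r5 : Row := [(0, [(11, 1)]), (2, [(22, 1)]), (6, [(34, 1)]), (7, [(35, 1)]), (10, [(43, 1), (44, 2)]), (23, [(45, 2), (46, 2)]), (24, [(45, 1), (46, 1)]), (25, [(45, 2), (46, 1)]), (47, [(55, 1), (56, 2)]), (50, [(79, 2), (80, 1), (81, 1), (83, 2)]), (51, [(80, 2), (81, 2)]), (58, [(95, 2), (96, 2)]), (59, [(95, 2), (96, 1)]), (60, [(95, 1), (96, 2)]), (67, [(99, 2)]), (68, [(99, 1), (100, 1)]), (85, [(101, 1)]), (86, [(101, 1)]), (87, [(101, 2)]), (88, [(101, 2)])]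
def r6 : Row := [(1, [(15, 1)]), (2, [(24, 1)]), (5, [(31, 1)]), (8, [(40, 1)]), (9, [(36, 2), (38, 2), (39, 1), (40, 2)]), (20, [(45, 1), (46, 1)]), (21, [(45, 1)]), (22, [(45, 1)]), (47, [(59, 1)]), (48, [(72, 1), (75, 1)]), (49, [(73, 1), (74, 2)]), (50, [(85, 1)]), (51, [(86, 1)]), (55, [(95, 1), (96, 1)]), (56, [(95, 1)]), (57, [(95, 1), (96, 2)]), (61, [(97, 2)]), (62, [(97, 2)]), (64, [(97, 1), (98, 2)]), (65, [(97, 2)]), (80, [(101, 1)]), (81, [(101, 2)]), (84, [(101, 1)])]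
def r7 : Row := [(1, [(18, 1)]), (2, [(25, 1)]), (5, [(30, 2), (31, 2), (33, 2), (34, 1)]), (8, [(39, 2), (40, 2)]), (9, [(36, 2), (37, 1), (38, 2), (39, 1), (40, 1), (41, 1)]), (20, [(45, 2)]), (22, [(45, 1)]), (47, [(58, 1), (59, 1)]), (48, [(75, 1), (77, 1)]), (49, [(74, 2)]), (50, [(88, 1)]), (51, [(86, 1)]), (55, [(95, 1), (96, 1)]), (56, [(95, 1), (96, 1)]), (61, [(97, 2)]), (62, [(98, 2)]), (63, [(97, 2)]), (64, [(97, 1), (98, 1)]), (65, [(97, 2), (98, 2)]), (79, [(101, 2)]), (81, [(101, 1)]), (83, [(101, 2)]), (84, [(101, 1)])]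
def r8 : Row := [(0, [(14, 1)]), (1, [(20, 1)]), (2, [(27, 1)]), (3, [(29, 1)]), (4, [(30, 1)]), (6, [(38, 1)]), (7, [(39, 1)]), (8, [(44, 1)]), (9, [(43, 2)]), (14, [(45, 2), (46, 1)]), (15, [(46, 1)]), (16, [(45, 2)]), (17, [(45, 2), (46, 2)]), (18, [(46, 2)]), (47, [(61, 1), (64, 1)]), (48, [(79, 1), (82, 1)]), (49, [(81, 2)]), (50, [(91, 1), (92, 1), (93, 1)]), (51, [(90, 2), (92, 1)]), (52, [(95, 2), (96, 2)]), (53, [(95, 2)]), (54, [(96, 1)]), (58, [(97, 2)]), (59, [(97, 1), (98, 1)]), (60, [(97, 2), (98, 1)]), (61, [(99, 1)]), (62, [(100, 2)]), (63, [(99, 2)]), (64, [(99, 2)]), (65, [(99, 1), (100, 1)]), (73, [(101, 2)]), (74, [(101, 1)]), (76, [(101, 1)]), (77, [(101, 1)]), (78, [(101, 2)])]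
def r9 : Row := [(0, [(16, 1)]), (1, [(21, 1)]), (2, [(28, 1)]), (3, [(32, 1)]), (4, [(33, 1)]), (6, [(39, 2), (40, 2)]), (7, [(41, 1)]), (8, [(43, 2)]), (14, [(45, 2)]), (15, [(45, 2)]), (17, [(45, 1), (46, 1)]), (19, [(45, 2), (46, 1)]), (47, [(63, 1), (64, 1)]), (48, [(82, 1), (84, 1)]), (49, [(81, 2)]), (50, [(89, 2), (90, 2), (91, 2), (92, 1), (93, 1), (94, 1)]), (51, [(90, 2), (92, 1)]), (52, [(95, 2), (96, 2)]), (53, [(95, 2), (96, 2)]), (58, [(97, 2)]), (59, [(97, 1), (98, 2)]), (60, [(97, 2), (98, 2)]), (61, [(99, 2)]), (62, [(100, 2)]), (63, [(99, 1)]), (64, [(99, 2)]), (65, [(99, 1), (100, 1)]), (72, [(101, 1)]), (74, [(101, 2)]), (76, [(101, 1)]), (77, [(101, 2)]), (78, [(101, 2)])]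
def r10 : Row := [(0, [(23, 1)]), (1, [(26, 1)]), (3, [(36, 1)]), (4, [(37, 1)]), (5, [(43, 1)]), (11, [(45, 1)]), (12, [(45, 1)]), (13, [(46, 1)]), (47, [(66, 1), (67, 1)]), (48, [(89, 1), (92, 1), (93, 1)]), (49, [(90, 2)]), (52, [(97, 2)]), (53, [(97, 1)]), (54, [(98, 2)]), (56, [(99, 1)]), (57, [(100, 2)]), (70, [(101, 1)]), (71, [(101, 1)])]
def r11 : Row := [(2, [(35, 1)]), (10, [(45, 2), (46, 1)]), (47, [(70, 2)]), (50, [(96, 1)]), (51, [(95, 2), (96, 2)]), (66, [(101, 1)]), (67, [(101, 1)]), (68, [(101, 1)])]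
def r12 : Row := [(2, [(29, 1), (30, 1), (31, 2), (33, 2), (34, 1), (35, 1)]), (10, [(45, 2)]), (47, [(69, 1), (70, 2)]), (50, [(95, 1), (96, 2)]), (51, [(95, 2), (96, 1)]), (66, [(101, 2)]), (67, [(101, 2)])]
def r13 : Row := [(2, [(30, 2), (31, 2), (33, 2), (35, 1)]), (10, [(45, 2)]), (47, [(69, 2), (70, 2)]), (50, [(95, 2), (96, 1)]), (51, [(95, 2)]), (66, [(101, 1)]), (68, [(101, 2)])]
def r14 : Row := [(1, [(30, 1)]), (2, [(39, 1)]), (8, [(46, 2)]), (47, [(73, 2), (74, 2), (75, 2)]), (48, [(95, 2), (96, 2)]), (49, [(95, 2), (96, 2)]), (51, [(97, 1), (98, 1)]), (61, [(101, 1)]), (62, [(101, 1)]), (64, [(101, 1)]), (65, [(101, 1)])]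
def r15 : Row := [(1, [(31, 1)]), (2, [(36, 2), (38, 2), (39, 1), (40, 2)]), (8, [(45, 1)]), (9, [(45, 1)]), (47, [(72, 1), (73, 2), (74, 1)]), (48, [(95, 1), (96, 1)]), (49, [(96, 1)]), (50, [(97, 1)]), (51, [(97, 1)]), (61, [(101, 1)]), (62, [(101, 1)]), (63, [(101, 1)]), (64, [(101, 2)])]
def r16 : Row := [(1, [(33, 1)]), (2, [(41, 1)]), (9, [(45, 2), (46, 1)]), (47, [(73, 2), (75, 1)]), (48, [(95, 1)]), (49, [(95, 2), (96, 2)]), (50, [(97, 2)]), (51, [(97, 1), (98, 1)]), (62, [(101, 1)]), (63, [(101, 2)]), (64, [(101, 1)]), (65, [(101, 1)])]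
def r17 : Row := [(1, [(29, 1), (31, 2), (33, 2), (34, 2), (35, 2)]), (2, [(42, 1)]), (8, [(45, 2), (46, 2)]), (9, [(45, 2), (46, 2)]), (47, [(72, 1), (73, 2), (74, 1)]), (48, [(95, 1)]), (49, [(96, 1)]), (50, [(97, 1)]), (51, [(97, 1)]), (61, [(101, 1)]), (62, [(101, 1)]), (63, [(101, 1)]), (64, [(101, 2)])]
def r18 : Row := [(1, [(30, 2), (31, 2), (33, 2), (34, 1)]), (2, [(36, 2), (37, 1), (38, 2), (39, 1), (40, 1), (41, 1)]), (9, [(45, 1)]), (47, [(73, 2), (75, 1), (77, 1)]), (48, [(95, 2)]), (50, [(97, 1)]), (51, [(97, 1)]), (62, [(101, 1)]), (63, [(101, 2)]), (65, [(101, 1)])]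
def r19 : Row := [(1, [(29, 1), (30, 1), (34, 1)]), (2, [(36, 1), (37, 1), (38, 2), (40, 1), (41, 2), (42, 1)]), (8, [(45, 1)]), (47, [(73, 2), (74, 2), (75, 2), (78, 1)]), (48, [(95, 2), (96, 1)]), (49, [(96, 2)]), (50, [(97, 1), (98, 2)]), (51, [(97, 1), (98, 1)]), (61, [(101, 2)]), (62, [(101, 2)])]
def r20 : Row := [(0, [(29, 1)]), (2, [(43, 2)]), (6, [(45, 2)]), (7, [(45, 2), (46, 2)]), (47, [(79, 1), (80, 1), (82, 2)]), (50, [(99, 1)]), (51, [(99, 2), (100, 1)]), (58, [(101, 1)]), (60, [(101, 2)])]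
def r21 : Row := [(0, [(32, 1)]), (7, [(45, 1), (46, 1)]), (47, [(80, 1), (82, 2), (84, 1)]), (51, [(99, 2), (100, 1)]), (58, [(101, 2)]), (59, [(101, 2)]), (60, [(101, 1)])]
def r22 : Row := [(0, [(34, 1)]), (2, [(43, 1), (44, 2)]), (6, [(45, 2), (46, 2)]), (7, [(45, 1), (46, 1)]), (47, [(79, 2), (80, 2), (81, 1), (82, 1), (83, 2)]), (50, [(99, 2)]), (51, [(99, 2), (100, 1)]), (58, [(101, 2)]), (59, [(101, 1)])]
def r23 : Row := [(1, [(37, 1)]), (5, [(46, 1)]), (47, [(86, 2)]), (48, [(97, 1)]), (49, [(97, 1), (98, 1)]), (55, [(101, 2)]), (56, [(101, 2)]), (57, [(101, 1)])]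
def r24 : Row := [(1, [(40, 1)]), (5, [(45, 1), (46, 1)]), (47, [(85, 1), (86, 2)]), (48, [(97, 1)]), (49, [(98, 1)]), (55, [(101, 2)]), (56, [(101, 1)]), (57, [(101, 1)])]
def r25 : Row := [(1, [(39, 2), (40, 2)]), (5, [(45, 2)]), (47, [(86, 2), (88, 1)]), (48, [(97, 1)]), (49, [(98, 1)]), (55, [(101, 1)])]
def r26 : Row := [(0, [(36, 1)]), (1, [(43, 1)]), (3, [(45, 1)]), (4, [(45, 1)]), (47, [(89, 1), (92, 1), (93, 2)]), (48, [(99, 2)]), (49, [(100, 1)]), (52, [(101, 1)]), (53, [(101, 1)]), (54, [(101, 1)])]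
def r27 : Row := [(0, [(38, 1)]), (1, [(44, 1)]), (3, [(45, 2), (46, 1)]), (4, [(46, 1)]), (47, [(91, 1), (92, 1), (93, 2)]), (49, [(100, 1)]), (52, [(101, 1)]), (53, [(101, 2)]), (54, [(101, 2)])]
def r28 : Row := [(0, [(39, 2), (40, 2)]), (1, [(43, 2)]), (3, [(45, 2)]), (4, [(45, 2)]), (47, [(89, 2), (90, 2), (91, 2), (92, 1), (93, 2), (94, 1)]), (48, [(99, 1)]), (49, [(100, 1)]), (52, [(101, 2)])]
def r29 : Row := [(2, [(45, 2), (46, 2)]), (47, [(95, 1), (96, 2)]), (50, [(101, 2)])]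
def r30 : Row := [(50, [(101, 1)]), (51, [(101, 2)])]
def r31 : Row := [(2, [(45, 1)]), (47, [(95, 2), (96, 1)]), (50, [(101, 2)]), (51, [(101, 1)])]
def r32 : Row := [(2, [(45, 1), (46, 1)]), (47, [(95, 2)]), (50, [(101, 1)])]
def r33 : Row := [(2, [(45, 2), (46, 1)]), (50, [(101, 1)]), (51, [(101, 2)])]
def r34 : Row := [(2, [(45, 1), (46, 1)]), (47, [(96, 1)]), (50, [(101, 2)])]
def r35 : Row := [(2, [(45, 2), (46, 1)]), (50, [(101, 1)]), (51, [(101, 2)])]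
def r36 : Row := [(1, [(45, 1)]), (47, [(98, 1)]), (48, [(101, 1)])]
def r37 : Row := [(1, [(46, 1)]), (47, [(97, 1), (98, 2)]), (48, [(101, 2)]), (49, [(101, 1)])]
def r38 : Row := [(1, [(46, 1)]), (47, [(97, 1), (98, 2)])]
def r39 : Row := [(1, [(46, 2)]), (47, [(97, 1), (98, 2)]), (49, [(101, 1)])]
def r40 : Row := [(1, [(45, 1), (46, 1)]), (47, [(98, 1)]), (49, [(101, 2)])]
def r41 : Row := [(47, [(97, 1), (98, 2)]), (48, [(101, 1)]), (49, [(101, 1)])]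
def r42 : Row := [(1, [(45, 2), (46, 2)]), (47, [(98, 1)]), (48, [(101, 2)]), (49, [(101, 2)])]
def r43 : Row := [(0, [(45, 1)]), (47, [(99, 2)])]
def r44 : Row := [(0, [(45, 2), (46, 1)])]
def r45 : Row := [(47, [(101, 1)])]
def r46 : Row := [(47, [(101, 1)])]
def r47 : Row := [(1, [(49, 1)]), (2, [(51, 1)]), (3, [(53, 2), (54, 1)]), (4, [(53, 2)]), (5, [(56, 1), (57, 1)]), (6, [(59, 2), (60, 1)]), (7, [(59, 2)]), (8, [(64, 2), (65, 1)]), (9, [(62, 1), (64, 2)]), (10, [(67, 2), (68, 1)]), (11, [(70, 2), (71, 2)]), (12, [(70, 2), (71, 1)]), (13, [(70, 2)]), (14, [(73, 1), (75, 2), (76, 2), (77, 2), (78, 1)]), (15, [(76, 1)]), (16, [(72, 1), (73, 2), (74, 1), (76, 2), (77, 2), (78, 2)]), (17, [(73, 2), (74, 1), (76, 1)]), (18, [(73, 2), (74, 2), (75, 2)]), (19, [(73, 2), (75, 1)]), (20, [(81, 2), (82, 2), (83, 1), (84, 2)]), (21, [(79, 2), (80, 1), (82, 2), (83, 2), (84, 2)]), (22, [(80, 1), (81, 1),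 (82, 1), (83, 1)]), (23, [(86, 1), (88, 2)]), (24, [(86, 2), (87, 1)]), (25, [(86, 2)]), (26, [(91, 1), (92, 1)]), (27, [(89, 2), (90, 2), (91, 2), (92, 2), (93, 2), (94, 1)]), (28, [(90, 1), (93, 1), (94, 1)]), (29, [(96, 2)]), (30, [(95, 2), (96, 1)]), (31, [(95, 1)]), (32, [(96, 2)]), (33, [(96, 1)]), (34, [(95, 2)]), (35, [(96, 1)]), (36, [(97, 1), (98, 2)]), (37, [(97, 1)]), (38, [(97, 2), (98, 2)]), (39, [(97, 1)]), (40, [(97, 2), (98, 1)]), (41, [(97, 1), (98, 1)]), (43, [(100, 2)]), (44, [(99, 1)]), (45, [(101, 2)])]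
def r48 : Row := [(0, [(53, 2)]), (1, [(56, 1)]), (3, [(70, 1)]), (4, [(70, 1)]), (6, [(75, 2)]), (7, [(73, 1), (74, 2)]), (8, [(82, 2)]), (9, [(80, 2), (81, 1), (82, 1)]), (10, [(92, 2), (93, 2)]), (14, [(95, 1), (96, 2)]), (15, [(95, 2), (96, 1)]), (16, [(95, 2), (96, 2)]), (17, [(96, 1)]), (18, [(95, 2), (96, 2)]), (19, [(95, 2), (96, 2)]), (23, [(97, 1)]), (24, [(97, 1)]), (25, [(97, 1), (98, 1)]), (26, [(99, 1)]), (27, [(99, 1)]), (28, [(99, 1), (100, 2)]), (36, [(101, 1)]), (37, [(101, 2)]), (38, [(101, 2)]), (39, [(101, 2)]), (40, [(101, 1)]), (41, [(101, 1)]), (42, [(101, 2)])]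
def r49 : Row := [(0, [(54, 1)]), (1, [(57, 1)]), (2, [(62, 1)]), (3, [(71, 2)]), (4, [(71, 1)]), (6, [(72, 1), (75, 1), (76, 2), (77, 2), (78, 2)]), (7, [(74, 1), (76, 1)]), (8, [(79, 2), (82, 1), (83, 2), (84, 2)]), (9, [(81, 1), (83, 1)]), (10, [(90, 1), (94, 1)]), (14, [(95, 1)]), (15, [(95, 1), (96, 1)]), (16, [(95, 1)]), (17, [(95, 1), (96, 1)]), (18, [(95, 2)]), (19, [(95, 2), (96, 2)]), (23, [(98, 1)]), (24, [(98, 2)]), (25, [(97, 1)]), (26, [(100, 1)]), (28, [(99, 2), (100, 2)]), (36, [(101, 1)]), (37, [(101, 2)]), (38, [(101, 2)]), (40, [(101, 1)]), (42, [(101, 2)])]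
def r50 : Row := [(0, [(59, 2)]), (1, [(64, 2)]), (3, [(73, 1), (74, 2), (75, 1)]), (4, [(73, 1), (74, 2)]), (5, [(80, 2), (81, 1), (82, 1)]), (7, [(86, 1)]), (8, [(92, 2), (93, 2)]), (9, [(90, 1), (92, 2), (93, 1)]), (11, [(95, 1)]), (12, [(96, 1)]), (13, [(95, 2), (96, 2)]), (15, [(97, 1)]), (16, [(98, 1)]), (17, [(98, 1)]), (18, [(97, 1), (98, 1)]), (19, [(97, 1), (98, 1)]), (20, [(99, 1)]), (21, [(99, 1), (100, 2)]), (22, [(99, 1), (100, 2)]), (30, [(101, 2)]), (31, [(101, 1)]), (32, [(101, 2)]), (33, [(101, 1)]), (34, [(101, 1)]), (35, [(101, 1)])]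
def r51 : Row := [(0, [(60, 1)]), (1, [(65, 1)]), (2, [(68, 1)]), (3, [(73, 2), (74, 2), (75, 1), (76, 2), (77, 2), (78, 1)]), (4, [(73, 1), (74, 1), (76, 1)]), (5, [(80, 2), (81, 2), (82, 1), (83, 1), (84, 2)]), (6, [(86, 2), (88, 2)]), (7, [(87, 1)]), (8, [(91, 1), (92, 1), (93, 2)]), (9, [(89, 2), (90, 2), (91, 2), (92, 2), (93, 1), (94, 1)]), (11, [(96, 1)]), (12, [(96, 1)]), (13, [(96, 1)]), (14, [(97, 2), (98, 1)]), (15, [(98, 1)]), (16, [(97, 1), (98, 1)]), (17, [(98, 1)]), (18, [(98, 2)]), (20, [(100, 2)]), (21, [(99, 1)]), (22, [(100, 1)]), (31, [(101, 1)]), (33, [(101, 1)]), (34, [(101, 1)]), (35, [(101, 2)])]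
def r52 : Row := [(1, [(70, 2)]), (2, [(75, 1)]), (9, [(95, 1), (96, 1)]), (10, [(97, 2)]), (27, [(101, 2)])]
def r53 : Row := [(1, [(70, 2)]), (2, [(73, 2), (74, 1), (75, 2)]), (8, [(95, 1), (96, 1)]), (9, [(95, 2)]), (10, [(98, 2)]), (27, [(101, 1)]), (28, [(101, 2)])]
def r54 : Row := [(1, [(71, 1)]), (2, [(76, 1)]), (8, [(95, 2), (96, 2)]), (9, [(95, 2), (96, 2)]), (10, [(97, 1), (98, 1)]), (26, [(101, 1)]), (27, [(101, 1)]), (28, [(101, 1)])]
def r55 : Row := [(0, [(70, 2)]), (2, [(82, 1)]), (7, [(96, 2)]), (10, [(99, 2)]), (24, [(101, 1)]), (25, [(101, 1)])]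
def r56 : Row := [(0, [(70, 1)]), (2, [(80, 2), (81, 1), (82, 2)]), (6, [(95, 2), (96, 2)]), (7, [(95, 1)]), (10, [(100, 2)]), (24, [(101, 2)]), (25, [(101, 1)])]
def r57 : Row := [(0, [(71, 2)]), (2, [(83, 1)]), (6, [(95, 1), (96, 1)]), (7, [(95, 1), (96, 1)]), (10, [(99, 2)]), (24, [(101, 2)]), (25, [(101, 2)])]
def r58 : Row := [(1, [(73, 2), (74, 1), (75, 2)]), (5, [(96, 2)]), (8, [(97, 1)]), (9, [(97, 1), (98, 2)]), (20, [(101, 1)]), (21, [(101, 1)]), (22, [(101, 2)])]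
def r59 : Row := [(1, [(73, 2), (74, 1), (75, 1)]), (2, [(86, 2)]), (5, [(96, 2)]), (8, [(97, 1), (98, 2)]), (9, [(97, 2), (98, 2)]), (20, [(101, 2)]), (21, [(101, 1)])]
def r60 : Row := [(1, [(73, 1), (74, 2), (76, 1)]), (2, [(87, 1)]), (5, [(96, 2)]), (8, [(98, 2)]), (9, [(98, 2)]), (20, [(101, 2)]), (21, [(101, 2)]), (22, [(101, 2)])]
def r61 : Row := [(0, [(73, 2), (75, 1)]), (1, [(80, 1), (82, 1)]), (2, [(92, 1), (93, 1)]), (3, [(95, 1), (96, 1)]), (4, [(96, 2)]), (6, [(97, 2)]), (7, [(98, 2)]), (8, [(99, 2)]), (9, [(99, 1), (100, 1)]), (14, [(101, 2)]), (15, [(101, 1)]), (18, [(101, 1)]), (19, [(101, 1)])]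
def r62 : Row := [(0, [(72, 1), (74, 2), (75, 1), (76, 2), (77, 2), (78, 2)]), (1, [(79, 2), (81, 2), (82, 1), (83, 2), (84, 2)]), (2, [(94, 1)]), (3, [(95, 1), (96, 1)]), (4, [(95, 1)]), (6, [(98, 2)]), (8, [(100, 2)]), (9, [(100, 1)]), (14, [(101, 2)]), (15, [(101, 1)]), (17, [(101, 2)])]
def r63 : Row := [(0, [(73, 2), (74, 2), (75, 2)]), (1, [(80, 1), (82, 1)]), (2, [(92, 1), (93, 1)]), (3, [(96, 2)]), (4, [(96, 2)]), (6, [(97, 1)]), (7, [(98, 2)]), (8, [(99, 2)]), (9, [(99, 1), (100, 1)]), (14, [(101, 1)]), (15, [(101, 1)]), (16, [(101, 1)]), (18, [(101, 1)]), (19, [(101, 1)])]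
def r64 : Row := [(0, [(73, 2), (74, 1)]), (1, [(80, 1), (81, 2), (82, 1)]), (2, [(90, 2), (93, 1)]), (3, [(95, 1), (96, 1)]), (4, [(95, 2)]), (6, [(97, 2), (98, 2)]), (7, [(97, 1), (98, 2)]), (8, [(100, 1)]), (9, [(100, 1)]), (15, [(101, 1)]), (17, [(101, 1)]), (18, [(101, 2)]), (19, [(101, 2)])]
def r65 : Row := [(0, [(73, 2), (75, 1), (76, 2), (77, 2), (78, 1)]), (1, [(80, 2), (81, 1), (82, 1), (83, 1), (84, 2)]), (2, [(89, 2), (90, 1), (91, 2), (92, 2), (93, 1), (94, 1)]), (3, [(96, 2)]), (4, [(96, 2)]), (6, [(97, 1), (98, 2)]), (8, [(99, 1), (100, 1)]), (9, [(100, 2)]), (14, [(101, 1)]), (16, [(101, 2)]), (17, [(101, 1)]), (18, [(101, 2)])]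
def r66 : Row := [(0, [(86, 2)]), (1, [(93, 1)]), (3, [(97, 1), (98, 2)]), (4, [(98, 2)]), (5, [(99, 1), (100, 1)]), (11, [(101, 2)]), (13, [(101, 1)])]
def r67 : Row := [(0, [(86, 2)]), (1, [(90, 2), (93, 1)]), (3, [(97, 2), (98, 2)]), (4, [(97, 1), (98, 2)]), (5, [(100, 1)]), (12, [(101, 1)]), (13, [(101, 2)])]
def r68 : Row := [(0, [(86, 2), (88, 2)]), (1, [(90, 2), (91, 1), (92, 1), (93, 2)]), (3, [(97, 2), (98, 2)]), (4, [(98, 1)]), (11, [(101, 1)]), (12, [(101, 2)]), (13, [(101, 1)])]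
def r69 : Row := [(2, [(95, 2), (96, 1)]), (10, [(101, 1)])]
def r70 : Row := [(2, [(95, 1)]), (10, [(101, 1)])]
def r71 : Row := [(2, [(95, 2)])]
def r72 : Row := [(1, [(96, 1)]), (2, [(97, 1)]), (8, [(101, 1)]), (9, [(101, 2)])]
def r73 : Row := [(1, [(95, 1)]), (2, [(97, 2), (98, 1)]), (8, [(101, 1)]), (9, [(101, 1)])]
def r74 : Row := []
def r75 : Row := [(1, [(95, 1), (96, 2)]), (2, [(97, 1)]), (8, [(101, 2)]), (9, [(101, 1)])]
def r76 : Row := [(1, [(95, 2)]), (2, [(97, 1), (98, 2)])]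
def r77 : Row := [(1, [(95, 1), (96, 1)]), (2, [(97, 1)]), (9, [(101, 2)])]
def r78 : Row := [(1, [(96, 2)]), (8, [(101, 1)]), (9, [(101, 1)])]
def r79 : Row := [(0, [(95, 2), (96, 2)]), (2, [(99, 1)]), (6, [(101, 2)])]
def r80 : Row := [(0, [(95, 2)]), (2, [(99, 2), (100, 1)]), (6, [(101, 2)]), (7, [(101, 2)])]
def r81 : Row := []
def r82 : Row := [(0, [(95, 2), (96, 1)]), (2, [(99, 1)]), (6, [(101, 1)]), (7, [(101, 2)])]
def r83 : Row := [(0, [(95, 1)]), (2, [(99, 2), (100, 1)]), (6, [(101, 1)])]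
def r84 : Row := [(0, [(95, 1), (96, 1)]), (2, [(99, 1)])]
def r85 : Row := [(1, [(98, 1)]), (5, [(101, 2)])]
def r86 : Row := [(1, [(97, 2), (98, 1)]), (5, [(101, 1)])]
def r87 : Row := [(5, [(101, 1)])]
def r88 : Row := [(1, [(97, 1), (98, 2)])]
def r89 : Row := [(1, [(99, 2)]), (3, [(101, 2)])]
def r90 : Row := []
def r91 : Row := [(0, [(97, 2), (98, 2)]), (1, [(99, 2)]), (3, [(101, 1)])]
def r92 : Row := [(0, [(97, 2), (98, 1)]), (1, [(99, 1), (100, 2)]), (3, [(101, 1)]), (4, [(101, 1)])]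
def r93 : Row := [(0, [(97, 2), (98, 2)]), (1, [(100, 1)]), (4, [(101, 1)])]
def r94 : Row := []
def r95 : Row := [(2, [(101, 1)])]
def r96 : Row := []
def r97 : Row := [(1, [(101, 2)])]
def r98 : Row := []
def r99 : Row := [(0, [(101, 1)])]
def r100 : Row := []
def r101 : Row := []

/-- the row of `i` -/
def row (i : ℕ) : Row := (bif Nat.ble 51 i then (bif Nat.ble 76 i then (bif Nat.ble 89 i then (bif Nat.ble 95 i then (bif Nat.ble 98 i then (bif Nat.ble 100 i then (bif Nat.ble 101 i then r101 else r100) else (bif Nat.ble 99 i then r99 else r98)) else (bif Nat.ble 96 i then (bif Nat.ble 97 i then r97 else r96) else r95)) else (bif Nat.ble 92 i then (bif Nat.ble 93 i then (bif Nat.ble 94 i then r94 else r93) else r92) else (bif Nat.ble 90 i then (bif Nat.ble 91 i then r91 else r90) else r89))) else (bif Nat.ble 82 i then (bif Nat.ble 85 i then (bif Nat.ble 87 i then (bif Nat.ble 88 i then r88 else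 r87) else (bif Nat.ble 86 i then r86 else r85)) else (bif Nat.ble 83 i then (bif Nat.ble 84 i then r84 else r83) else r82)) else (bif Nat.ble 79 i then (bif Nat.ble 80 i then (bif Nat.ble 81 i then r81 else r80) else r79) else (bif Nat.ble 77 i then (bif Nat.ble 78 i then r78 else r77) else r76)))) else (bif Nat.ble 63 i then (bif Nat.ble 69 i then (bif Nat.ble 72 i then (bif Nat.ble 74 i then (bif Nat.ble 75 i then r75 else r74) else (bif Nat.ble 73 i then r73 else r72)) else (bif Nat.ble 70 i then (bif Nat.ble 71 i then r71 else r70) else r69)) else (bif Nat.ble 66 i then (bif Nat.ble 67 i then (bif Nat.ble 68 i then r68 else r67) else r66) else (bif Nat.ble 64 i then (bif Nat.ble 65 i then r65 else r64) else r63))) else (bif Nat.ble 57 i then (bif Nat.ble 60 i then (bif Nat.ble 61 i then (bif Nat.ble 62 i then r62 else r61) else r60) else (bif Nat.ble 58 i then (bif Nat.ble 59 i then r59 else r58)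 else r57)) else (bif Nat.ble 54 i then (bif Nat.ble 55 i then (bif Nat.ble 56 i then r56 else r55) else r54) else (bif Nat.ble 52 i then (bif Nat.ble 53 i then r53 else r52) else r51))))) else (bif Nat.ble 25 i then (bif Nat.ble 38 i then (bif Nat.ble 44 i then (bif Nat.ble 47 i then (bif Nat.ble 49 i then (bif Nat.ble 50 i then r50 else r49) else (bif Nat.ble 48 i then r48 else r47)) else (bif Nat.ble 45 i then (bif Nat.ble 46 i then r46 else r45) else r44)) else (bif Nat.ble 41 i then (bif Nat.ble 42 i then (bif Nat.ble 43 i then r43 else r42) else r41) else (bif Nat.ble 39 i then (bif Nat.ble 40 i then r40 else r39) else r38))) else (bif Nat.ble 31 i then (bif Nat.ble 34 i then (bif Nat.ble 36 i then (bif Nat.ble 37 i then r37 else r36) else (bif Nat.ble 35 i then r35 else r34)) else (bif Nat.ble 32 i then (bif Nat.ble 33 i then r33 else r32) else r31)) else (bif Nat.ble 28 i then (bif Nat.ble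 29 i then (bif Nat.ble 30 i then r30 else r29) else r28) else (bif Nat.ble 26 i then (bif Nat.ble 27 i then r27 else r26) else r25)))) else (bif Nat.ble 12 i then (bif Nat.ble 18 i then (bif Nat.ble 21 i then (bif Nat.ble 23 i then (bif Nat.ble 24 i then r24 else r23) else (bif Nat.ble 22 i then r22 else r21)) else (bif Nat.ble 19 i then (bif Nat.ble 20 i then r20 else r19) else r18)) else (bif Nat.ble 15 i then (bif Nat.ble 16 i then (bif Nat.ble 17 i then r17 else r16) else r15) else (bif Nat.ble 13 i then (bif Nat.ble 14 i then r14 else r13) else r12))) else (bif Nat.ble 6 i then (bif Nat.ble 9 i then (bif Nat.ble 10 i then (bif Nat.ble 11 i then r11 else r10) else r9) else (bif Nat.ble 7 i then (bif Nat.ble 8 i then r8 else r7) else r6)) else (bif Nat.ble 3 i then (bif Nat.ble 4 i then (bif Nat.ble 5 i then r5 else r4) else r3) else (bif Nat.ble 1 i then (bif Nat.ble 2 i then r2 else r1) else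 r0))))))
/-- the degree code of `i` -/
def dg (i : ℕ) : ℕ := (bif Nat.ble 47 i then (bif Nat.ble 69 i then (bif Nat.ble 89 i then (bif Nat.ble 97 i then (bif Nat.ble 99 i then (bif Nat.ble 101 i then 82 else 18) else 74) else (bif Nat.ble 95 i then 81 else 10)) else (bif Nat.ble 79 i then (bif Nat.ble 85 i then 66 else 17) else (bif Nat.ble 72 i then 73 else 80))) else (bif Nat.ble 55 i then (bif Nat.ble 61 i then (bif Nat.ble 66 i then 2 else 9) else (bif Nat.ble 58 i then 65 else 16)) else (bif Nat.ble 50 i then (bif Nat.ble 52 i then 72 else 1) else (bif Nat.ble 48 i then 8 else 0)))) else (bif Nat.ble 11 i then (bif Nat.ble 26 i then (bif Nat.ble 36 i then (bif Nat.ble 43 i then (bif Nat.ble 45 i then 82 else 18) else 74) else (bif Nat.ble 29 i then 81 else 10)) else (bif Nat.ble 20 i then (bif Nat.ble 23 i then 66 else 17) else (bif Nat.ble 14 i then 73 else 80))) else (bif Nat.ble 5 i then (bif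 Nat.ble 8 i then (bif Nat.ble 10 i then 2 else 9) else (bif Nat.ble 6 i then 65 else 16)) else (bif Nat.ble 2 i then (bif Nat.ble 3 i then 72 else 1) else (bif Nat.ble 1 i then 8 else 64)))))
/-- blocks of equal degree: degree code, start, length -/
def classes : List (ℕ × ℕ × ℕ) := [(64, 0, 1), (8, 1, 1), (1, 2, 1), (72, 3, 2), (16, 5, 1), (65, 6, 2), (9, 8, 2), (2, 10, 1), (80, 11, 3), (73, 14, 6), (17, 20, 3), (66, 23, 3), (10, 26, 3), (81, 29, 7), (74, 36, 7), (18, 43, 2), (82, 45, 2), (0, 47, 1), (8, 48, 2), (1, 50, 2), (72, 52, 3), (16, 55, 3), (65, 58, 3), (9, 61, 5), (2, 66, 3), (80, 69, 3), (73, 72, 7), (17, 79, 6), (66, 85, 4), (10, 89, 6), (81, 95, 2), (74, 97, 2), (18, 99, 2), (82, 101, 1)]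

/-- lookup in a row -/
noncomputable def look (l : Row) (j : ℕ) : List (ℕ × ℕ) :=
  @List.rec (ℕ × List (ℕ × ℕ)) (fun _ => List (ℕ × ℕ)) []
    (fun e _ ih => bif Nat.beq e.1 j then e.2 else ih) l

/-- admissible degree codes -/
def ok (s : ℕ) : Bool := Nat.ble (s % 8) 2 && (Nat.ble (s / 8 % 8) 2 && Nat.ble (s / 64) 1)

/-- the product of the basis elements `i` and `j` -/
noncomputable def mulT (i j : ℕ) : List (ℕ × ℕ) :=
  bif ok (dg i + dg j) then look (row i) j else []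

/-- parity -/
def pr (i : ℕ) : ℕ := (dg i % 8 + dg i / 8 % 8 + dg i / 64) % 2

/-- sign of an exchange, as a residue mod 3 -/
def sg (i j : ℕ) : ℕ := bif Nat.beq (pr i * pr j) 0 then 1 else 2

/-- scalar multiple -/
def scale (c : ℕ) (l : List (ℕ × ℕ)) : List (ℕ × ℕ) := l.map fun e => (e.1, c * e.2)

/-- `p * k` -/
noncomputable def mulR (p : List (ℕ × ℕ)) (k : ℕ) : List (ℕ × ℕ) :=
  p.flatMap fun e => scale e.2 (mulT e.1 k)

/-- `i * p` -/
noncomputable def mulL (i : ℕ) (p : List (ℕ × ℕ)) : List (ℕ × ℕ) :=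
  p.flatMap fun e => scale e.2 (mulT i e.1)

/-- the associator of basis elements -/
noncomputable def asc (i j k : ℕ) : List (ℕ × ℕ) :=
  mulR (mulT i j) k ++ scale 2 (mulL i (mulT j k))

/-- the coefficient of `k` -/
def coef (k : ℕ) (l : List (ℕ × ℕ)) : ℕ :=
  l.foldr (fun e s => bif Nat.beq e.1 k then e.2 + s else s) 0

/-- all coefficients are divisible by 3 -/
def isZ (l : List (ℕ × ℕ)) : Bool := l.all fun e => Nat.beq (coef e.1 l % 3) 0

/-- the super-alternativity relations for the basis elements `i, j, k` -/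
noncomputable def rel (i j k : ℕ) : Bool :=
  isZ (asc i j k ++ scale (sg i j) (asc j i k)) && isZ (asc i j k ++ scale (sg j k) (asc i k j))

/-- the members of a block -/
def mem (c : ℕ × ℕ × ℕ) : List ℕ := (List.range c.2.2).map fun t => c.2.1 + t

noncomputable def chk3 : Bool :=
  classes.all fun c1 => classes.all fun c2 => classes.all fun c3 =>
    !ok (c1.1 + c2.1 + c3.1) || (mem c1).all fun i => (mem c2).all fun j => (mem c3).all fun k =>
      rel i j k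

/-- grading -/
noncomputable def chk2 : Bool :=
  classes.all fun c1 => classes.all fun c2 => !ok (c1.1 + c2.1) ||
    (mem c1).all fun i => (mem c2).all fun j => (mulT i j).all fun e =>
      Nat.blt e.1 102 && (Nat.beq (dg e.1) (dg i + dg j) && Nat.beq (pr e.1) ((pr i + pr j) % 2))

noncomputable def chk1 : Bool :=
  (List.range 102).all fun i => classes.any fun c => Nat.beq (dg i) c.1 &&
    (Nat.ble c.2.1 i && Nat.blt i (c.2.1 + c.2.2))

end Pool.Agent.H772R4.AltData
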