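import Pool.Agent.H772R4.AltModel

set_option autoImplicit false

/-!
The torsion element does not vanish in the model.
-/

namespace Pool.Agent.H772R4.AltEval

open Pool.Agent.H772R4.AltData Pool.Agent.H772R4.AltId Pool.Agent.H772R4.AltModel
open Pool.Agent.H772R3.JordanModel (ξ Ξ Ξ_cons Ξ_nil Ξ_append Ξ_ne_zero)

universe u

section Hom

variable {R : Type u} [NonUnitalNonAssocRing R] {S : Type} [NonUnitalNonAssocRing S]

lemma map_tors (f : R →ₙ+* S) (a b c d e g : R) :
    f (tors a b c d e g) = tors (f a) (f b) (f c) (f d) (f e) (f g) := by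
  simp only [tors, q, p, J, C, A, map_add, map_sub, map_mul, map_zsmul]

end Hom

/-- Formal combinations: index, coefficient, word. -/
abbrev NF : Type := List (ℕ × ℕ × List ℕ)

/-- value -/
noncomputable def den (P : NF) : G := (P.map fun e => sg1 e.1 (e.2.1 • Ξ e.2.2)).sum

lemma den_cons (e : ℕ × ℕ × List ℕ) (P : NF) :
    den (e :: P) = sg1 e.1 (e.2.1 • Ξ e.2.2) + den P := rfl
lemma den_nil : den [] = 0 := rfl
lemma den_append (P Q : NF) : den (P ++ Q) = den P + den Q := by
  rw [den, List.map_append, List.sum_append]; rfl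

/-- scalar multiple -/
def nsc (c : ℕ) (P : NF) : NF := P.map fun e => (e.1, c * e.2.1, e.2.2)

lemma den_nsc (c : ℕ) (P : NF) : den (nsc c P) = c • den P := by
  induction P with
  | nil => rw [den_nil, smul_zero]; rfl
  | cons e P ih =>
    have : nsc c (e :: P) = (e.1, c * e.2.1, e.2.2) :: nsc c P := rfl
    rw [this, den_cons, den_cons, ih, smul_add, ← map_nsmul, smul_smul]

/-- product of two terms -/
noncomputable def mul1 (a b : ℕ × ℕ × List ℕ) : NF :=
  (mulT a.1 b.1).map fun e => (e.1, a.2.1 * b.2.1 * e.2, a.2.2 ++ b.2.2)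

lemma den_mul1 (a b : ℕ × ℕ × List ℕ) : den (mul1 a b) =
    (sg1 a.1 (a.2.1 • Ξ a.2.2) : G) * sg1 b.1 (b.2.1 • Ξ b.2.2) := by
  have h : (sg1 a.1 (a.2.1 • Ξ a.2.2) : G) * sg1 b.1 (b.2.1 • Ξ b.2.2) =
      vec (mulT a.1 b.1) ((a.2.1 • Ξ a.2.2) * (b.2.1 • Ξ b.2.2)) := mulG_sg1 _ _ _ _
  rw [h, mul1]
  induction mulT a.1 b.1 with
  | nil => rfl
  | cons e p ih =>
    rw [List.map_cons, den_cons, vec_cons, ih]
    congr 2
    rw [Ξ_append, smul_mul_assoc, mul_smul_comm, smul_smul, smul_smul]
    congr 1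
    ring

/-- product -/
noncomputable def nmul (P Q : NF) : NF := P.flatMap fun a => Q.flatMap fun b => mul1 a b

lemma den_nmul (P Q : NF) : den (nmul P Q) = den P * den Q := by
  induction P with
  | nil => rw [den_nil, zero_mul]; rfl
  | cons a P ih =>
    have : nmul (a :: P) Q = (Q.flatMap fun b => mul1 a b) ++ nmul P Q := by
      rw [nmul, List.flatMap_cons]; rfl
    rw [this, den_append, ih, den_cons, add_mul]
    congr 1
    clear ih this
    induction Q with
    | nil => rw [den_nil, mul_zero]; rfl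
    | cons b Q ih => rw [List.flatMap_cons, den_append, ih, den_cons, mul_add, den_mul1]

lemma neg_den (P : NF) : -den P = den (nsc 2 P) := by
  rw [den_nsc, neg_eq_two' three_smulG]

lemma den_nsub (P Q : NF) : den (P ++ nsc 2 Q) = den P - den Q := by
  rw [den_append, ← neg_den, sub_eq_add_neg]

/-- associator -/
noncomputable def nA (P Q T : NF) : NF := nmul (nmul P Q) T ++ nsc 2 (nmul P (nmul Q T))
/-- commutator -/
noncomputable def nC (P Q : NF) : NF := nmul P Q ++ nsc 2 (nmul Q P)
/-- anticommutator -/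
noncomputable def nJ (P Q : NF) : NF := nmul P Q ++ nmul Q P

lemma den_nA (P Q T : NF) : den (nA P Q T) = A (den P) (den Q) (den T) := by
  rw [nA, den_nsub, den_nmul, den_nmul, den_nmul, den_nmul]; rfl
lemma den_nC (P Q : NF) : den (nC P Q) = C (den P) (den Q) := by
  rw [nC, den_nsub, den_nmul, den_nmul]; rfl
lemma den_nJ (P Q : NF) : den (nJ P Q) = J (den P) (den Q) := by
  rw [nJ, den_append, den_nmul, den_nmul]; rfl

/-- `q` for formal combinations -/
noncomputable def nq (a b c x y z : NF) : NF := nJ (nA a b c) (nC (nC x y) z)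
/-- `p` for formal combinations -/
noncomputable def np (a b c x y z : NF) : NF := nJ (nA a b c) (nA x y z)

lemma den_nq (a b c x y z : NF) :
    den (nq a b c x y z) = q (den a) (den b) (den c) (den x) (den y) (den z) := by
  rw [nq, den_nJ, den_nA, den_nC, den_nC]; rfl
lemma den_np (a b c x y z : NF) :
    den (np a b c x y z) = p (den a) (den b) (den c) (den x) (den y) (den z) := by
  rw [np, den_nJ, den_nA, den_nA]; rfl

lemma zsmul_den (n : ℤ) (c : ℕ) (h : (n - c) % 3 = 0) (P : NF) : n • den P = den (nsc c P) := by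
  rw [den_nsc]
  obtain ⟨m, hm⟩ := Int.dvd_of_emod_eq_zero h
  have : n = (c : ℤ) + m * 3 := by linarith
  have h3 : (3 : ℤ) • den P = 0 := by
    have := three_smulG (den P)
    rw [← natCast_zsmul] at this
    exact this
  rw [this, add_smul, mul_smul, h3, smul_zero, add_zero, natCast_zsmul]

/-- insertion with sign -/
def ins (a : ℕ) : List ℕ → ℕ × List ℕ
  | [] => (1, [a])
  | b :: l => bif Nat.ble a b then (1, a :: b :: l) else (2 * (ins a l).1, b :: (ins a l).2)

/-- sorting with sign -/
def srt : List ℕ → ℕ × List ℕ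
  | [] => (1, [])
  | a :: l => ((srt l).1 * (ins a (srt l).2).1, (ins a (srt l).2).2)

lemma ins_spec (a : ℕ) (l : List ℕ) : (ξ a * Ξ l : Lm) = (ins a l).1 • Ξ (ins a l).2 := by
  induction l with
  | nil => rw [ins, one_smul, Ξ_cons]
  | cons b l ih =>
    rw [ins]
    cases h : Nat.ble a b with
    | true => rw [cond_true, one_smul, Ξ_cons a]
    | false =>
      rw [cond_false, Ξ_cons, Ξ_cons, mul_smul, ← mul_smul_comm, ← ih, ← mul_assoc, ← mul_assoc]
      have h1 : (ξ a * ξ b : Lm) = -(ξ b * ξ a) := Pool.Agent.H772R3.Ext.ι_swap _ _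
      rw [h1, neg_mul, neg_eq_two]

lemma srt_spec (l : List ℕ) : (Ξ l : Lm) = (srt l).1 • Ξ (srt l).2 := by
  induction l with
  | nil => rw [srt, one_smul]
  | cons a l ih =>
    rw [srt, Ξ_cons, ih, mul_smul_comm, ins_spec, smul_smul]

/-- check that all the words belonging to the index `k` are permutations of `w` and sum up the
coefficients -/
def coefW (k : ℕ) (P : NF) : ℕ :=
  P.foldr (fun e s => bif Nat.beq e.1 k then e.2.1 * (srt e.2.2).1 + s else s) 0

/-- all words are permutations of `w` -/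
def allW (k : ℕ) (w : List ℕ) (P : NF) : Bool :=
  P.all fun e => !Nat.beq e.1 k || decide ((srt e.2.2).2 = w)

lemma co_den (k : ℕ) (w : List ℕ) (P : NF) (h : allW k w P = true) :
    co k (den P) = coefW k P • (Ξ w : Lm) := by
  induction P with
  | nil => rw [den_nil, map_zero]; exact (zero_smul ℕ _).symm
  | cons e P ih =>
    have h1 : (!Nat.beq e.1 k || decide ((srt e.2.2).2 = w)) = true ∧ allW k w P = true := by
      have : allW k w (e :: P) = ((!Nat.beq e.1 k || decide ((srt e.2.2).2 = w)) && allW k w P) := by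
        rw [allW, List.all_cons]; rfl
      rw [this, Bool.and_eq_true] at h
      exact h
    have h2 : coefW k (e :: P) =
        bif Nat.beq e.1 k then e.2.1 * (srt e.2.2).1 + coefW k P else coefW k P := rfl
    rw [den_cons, map_add, ih h1.2, sg1_apply, h2]
    by_cases hk : e.1 = k
    · have hb : Nat.beq e.1 k = true := Nat.beq_eq.mpr hk
      rw [if_pos hk, hb, cond_true, add_smul, mul_smul]
      have h3 := h1.1
      rw [hb, Bool.not_true, Bool.false_or, decide_eq_true_eq] at h3
      rw [srt_spec e.2.2, h3]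
    · have hb : Nat.beq e.1 k = false := by
        rw [← Bool.not_eq_true, Nat.beq_eq]; exact hk
      rw [if_neg hk, hb, cond_false, zero_add]

/-- `tors` for formal combinations -/
noncomputable def ntors (a b c d e f : NF) : NF :=
  nq a c e d f b ++ nq d e f c a b ++ nq a c f d e b ++ nsc 2 (nq c d e f a b) ++ nsc 2 (np a b e c d f) ++ nsc 1 (np a d e b c f) ++ nsc 2 (nq b c d e f a) ++ nsc 2 (nq a b e c d f) ++ nsc 2 (nq b d e a c f) ++ nq b c f d e a ++ nsc 2 (nq b c e f a d) ++ nsc 2 (np a b d c e f) ++ nsc 1 (np a b c d e f) ++ nsc 2 (np a c d b e f) ++ nsc 2 (np a d f b c e) ++ nsc 2 (nq a c d e f b) ++ nsc 2 (np a b f c d e) ++ nsc 1 (np a c e b d f) ++ nsc 2 (nq c e f d a b) ++ nq a e f c d b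

lemma den_ntors (a b c d e f : NF) : den (ntors a b c d e f) =
    tors (den a) (den b) (den c) (den d) (den e) (den f) := by
  have s2 : ∀ P : NF, (2 : ℤ) • den P = den (nsc 2 P) := zsmul_den 2 2 (by decide)
  have sm2 : ∀ P : NF, (-2 : ℤ) • den P = den (nsc 1 P) := zsmul_den (-2) 1 (by decide)
  have sm1 : ∀ P : NF, (-1 : ℤ) • den P = den (nsc 2 P) := zsmul_den (-1) 2 (by decide)
  have sm4 : ∀ P : NF, (-4 : ℤ) • den P = den (nsc 2 P) := zsmul_den (-4) 2 (by decide)
  simp only [tors, ← den_nq, ← den_np, s2, sm2, sm1, sm4, ← den_append]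
  rfl

/-- the six elements -/
def X : ℕ → NF
  | 0 => [(2, 1, [0])]
  | 1 => [(2, 1, [1])]
  | 2 => [(1, 1, [2])]
  | 3 => [(1, 1, [3])]
  | 4 => [(0, 1, [4])]
  | _ => [(47, 1, [])]

lemma check1 : allW 101 [0, 1, 2, 3, 4] (ntors (X 0) (X 1) (X 2) (X 3) (X 4) (X 5)) = true := by
  decide +kernel

lemma check2 : coefW 101 (ntors (X 0) (X 1) (X 2) (X 3) (X 4) (X 5)) % 3 = 1 := by
  decide +kernel

end Pool.Agent.H772R4.AltEval
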