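import Mathlib

set_option autoImplicit false

/-!
Identities of alternative rings.
-/

namespace Pool.Agent.H772R4.AltId

universe u

section Basic

variable {R : Type u} [NonUnitalNonAssocRing R]

/-- the associator -/
def A (x y z : R) : R := (x * y) * z - x * (y * z)

/-- the commutator -/
def C (x y : R) : R := x * y - y * x

/-- the anticommutator -/
def J (x y : R) : R := x * y + y * x

/-- `(a, b, c) ∘ [[x, y], z]` -/
def q (a b c x y z : R) : R := J (A a b c) (C (C x y) z)

/-- `(a, b, c) ∘ (x, y, z)` -/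
def p (a b c x y z : R) : R := J (A a b c) (A x y z)

/-- The torsion element. -/
def tors (a b c d e f : R) : R :=
  q a c e d f b + q d e f c a b + q a c f d e b + (2 : ℤ) • q c d e f a b + (2 : ℤ) • p a b e c d f + (-2 : ℤ) • p a d e b c f + (-1 : ℤ) • q b c d e f a + (-1 : ℤ) • q a b e c d f + (-1 : ℤ) • q b d e a c f + q b c f d e a + (-1 : ℤ) • q b c e f a d + (2 : ℤ) • p a b d c e f + (-2 : ℤ) • p a b c d e f + (2 : ℤ) • p a c d b e f + (2 : ℤ) • p a d f b c e + (-1 : ℤ) • q a c d e f b + (-4 : ℤ) • p a b f c d e + (-2 : ℤ) • p a c e b d f + (-1 : ℤ) • q c e f d a b + q a e f c d b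

lemma A_add1 (x x' y z : R) : A (x + x') y z = A x y z + A x' y z := by
  simp only [A, add_mul]; abel
lemma A_add2 (x y y' z : R) : A x (y + y') z = A x y z + A x y' z := by
  simp only [A, add_mul, mul_add]; abel
lemma A_add3 (x y z z' : R) : A x y (z + z') = A x y z + A x y z' := by
  simp only [A, mul_add]; abel
lemma A_sub1 (x x' y z : R) : A (x - x') y z = A x y z - A x' y z := by
  simp only [A, sub_mul]; abel
lemma J_add1 (x x' y : R) : J (x + x') y = J x y + J x' y := by
  simp only [J, add_mul, mul_add]; abel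
lemma J_add2 (x y y' : R) : J x (y + y') = J x y + J x y' := by
  simp only [J, add_mul, mul_add]; abel
lemma J_neg1 (x y : R) : J (-x) y = -J x y := by
  simp only [J, neg_mul, mul_neg]; abel
lemma J_neg2 (x y : R) : J x (-y) = -J x y := by
  simp only [J, neg_mul, mul_neg]; abel
lemma J_comm (x y : R) : J x y = J y x := by
  simp only [J]; abel
lemma C_add1 (x x' y : R) : C (x + x') y = C x y + C x' y := by
  simp only [C, add_mul, mul_add]; abel
lemma C_add2 (x y y' : R) : C x (y + y') = C x y + C x y' := by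
  simp only [C, add_mul, mul_add]; abel
lemma C_neg1 (x y : R) : C (-x) y = -C x y := by
  simp only [C, neg_mul, mul_neg]; abel
lemma C_swap (x y : R) : C x y = -C y x := by
  simp only [C]; abel

/-- Teichmüller's identity. -/
lemma teich (w x y z : R) : A (w * x) y z - A w (x * y) z + A w x (y * z) =
    w * A x y z + A w x y * z := by
  simp only [A, mul_sub, sub_mul]; abel

/-- Kleinfeld's function. -/
def K (w x y z : R) : R := A (w * x) y z - x * A w y z - A x y z * w

lemma q_add1 (a a' b c x y z : R) : q (a + a') b c x y z = q a b c x y z + q a' b c x y z := by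
  simp only [q, A_add1, J_add1]
lemma q_add2 (a b b' c x y z : R) : q a (b + b') c x y z = q a b c x y z + q a b' c x y z := by
  simp only [q, A_add2, J_add1]
lemma q_add4 (a b c x x' y z : R) : q a b c (x + x') y z = q a b c x y z + q a b c x' y z := by
  simp only [q, C_add1, J_add2]
lemma q_add5 (a b c x y y' z : R) : q a b c x (y + y') z = q a b c x y z + q a b c x y' z := by
  simp only [q, C_add2, C_add1, J_add2]
lemma q_add6 (a b c x y z z' : R) : q a b c x y (z + z') = q a b c x y z + q a b c x y z' := by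
  simp only [q, C_add2, J_add2]
lemma q_swap45 (a b c x y z : R) : q a b c x y z = -q a b c y x z := by
  rw [q, C_swap x y, C_neg1, J_neg2]; rfl
lemma p_comm (a b c x y z : R) : p a b c x y z = p x y z a b c := J_comm _ _

end Basic

section Alt

variable {R : Type u} [NonUnitalNonAssocRing R] (hl : ∀ x y : R, (x * x) * y = x * (x * y))
  (hr : ∀ x y : R, (y * x) * x = y * (x * x))

include hl in
lemma A_self12 (x y : R) : A x x y = 0 := by rw [A, hl, sub_self]
include hr in
lemma A_self23 (x y : R) : A y x x = 0 := by rw [A, hr, sub_self]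

include hl in
lemma A12 (x y z : R) : A x y z = -A y x z := by
  have h := A_self12 hl (x + y) z
  rw [A_add1, A_add2, A_add2, A_self12 hl, A_self12 hl, zero_add, add_zero] at h
  exact eq_neg_of_add_eq_zero_left h

include hr in
lemma A23 (x y z : R) : A x y z = -A x z y := by
  have h := A_self23 hr (y + z) x
  rw [A_add2, A_add3, A_add3, A_self23 hr, A_self23 hr, zero_add, add_zero] at h
  exact eq_neg_of_add_eq_zero_left h

include hl hr in
lemma Acyc (x y z : R) : A x y z = A y z x := by
  rw [A12 hl x y z, A23 hr y x z, neg_neg]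

include hl hr in
lemma Acyc2 (x y z : R) : A x y z = A z x y := (Acyc hl hr z x y).symm

include hl hr in
lemma A13 (x y z : R) : A x y z = -A z y x := by
  rw [Acyc hl hr x y z, A12 hl y z x]

include hl hr in
lemma A_self13 (x y : R) : A x y x = 0 := by
  rw [Acyc hl hr, A_self23 hr]

include hl hr in
lemma Kcyc (w x y z : R) : K w x y z = -K z w x y := by
  have h1 := teich w x y z
  have h2 := teich x y z w
  have k1 : A w (x * y) z = A (x * y) z w := Acyc hl hr _ _ _
  have k2 : A w x (y * z) = A x (y * z) w := Acyc hl hr _ _ _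
  have k3 : A x y (z * w) = A (z * w) x y := Acyc2 hl hr _ _ _
  rw [k1, k2] at h1
  rw [k3] at h2
  rw [K, K, Acyc hl hr w y z, Acyc hl hr z x y]
  linear_combination (norm := abel) h1 + h2

include hr in
lemma K34 (w x y z : R) : K w x y z = -K w x z y := by
  rw [K, K, A23 hr (w * x) y z, A23 hr w y z, A23 hr x y z, mul_neg, neg_mul]
  abel

include hr in
lemma K_self34 (w x y : R) : K w x y y = 0 := by
  rw [K, A_self23 hr, A_self23 hr, A_self23 hr, mul_zero, zero_mul]
  abel

include hl hr in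
/-- `(xy, x, z) = (y, x, z)x` -/
lemma M1 (x y z : R) : A (x * y) x z = A y x z * x := by
  have h : K x y x z = 0 := by
    rw [Kcyc hl hr x y x z, Kcyc hl hr z x y x, K34 hr x z x y, Kcyc hl hr x z y x,
      Kcyc hl hr x x z y, Kcyc hl hr y x x z, K_self34 hr]
    simp
  rw [K, A_self12 hl, mul_zero, sub_zero] at h
  exact sub_eq_zero.mp h

include hl hr in
/-- `(yx, x, z) = x(y, x, z)` -/
lemma M2 (x y z : R) : A (y * x) x z = x * A y x z := by
  have h : K y x x z = 0 := by
    rw [Kcyc hl hr y x x z, K_self34 hr, neg_zero]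
  rw [K, A_self12 hl, zero_mul, sub_zero] at h
  exact sub_eq_zero.mp h

include hl hr in
/-- `w(xy) = (wy)x` for `w = (x, y, z)` -/
lemma bR (x y z : R) : A x y z * (x * y) = (A x y z * y) * x := by
  have e1 : A (A x y z) x y = A ((x * y) * z) x y - A (x * (y * z)) x y := by
    rw [← A_sub1]; rfl
  have e2 : A (x * (y * z)) x y = (A x y z * y) * x := by
    rw [M1 hl hr, A23 hr (y * z) x y, M1 hl hr, A13 hl hr z y x]
    simp only [neg_mul, neg_neg]
  have e3 : K (x * y) z x y = A ((x * y) * z) x y - A x y z * (x * y) := by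
    rw [K, M1 hl hr, A_self13 hl hr, zero_mul, mul_zero, sub_zero, ← Acyc2 hl hr x y z]
  have e4 : K (x * y) z x y = K x y (x * y) z := by
    rw [Kcyc hl hr (x * y) z x y, Kcyc hl hr y (x * y) z x, neg_neg]
  have e5 : K x y (x * y) z = A (A x y z) x y := by
    rw [K, A_self12 hl, zero_sub, A12 hl x (x * y) z, M1 hl hr, A12 hl y (x * y) z, M2 hl hr,
      A12 hl y x z, ← Acyc hl hr y (A x y z) x]
    simp only [A, neg_mul, mul_neg]
    abel
  rw [e4, e5, e1, e2] at e3
  have := e3
  linear_combination (norm := abel) e3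

open MulOpposite in
include hl hr in
/-- `(yx)w = x(yw)` for `w = (x, y, z)` -/
lemma bL (x y z : R) : (y * x) * A x y z = x * (y * A x y z) := by
  have hl' : ∀ x y : Rᵐᵒᵖ, (x * x) * y = x * (x * y) := fun x y =>
    unop_injective (by simpa using (hr (unop x) (unop y)).symm)
  have hr' : ∀ x y : Rᵐᵒᵖ, (y * x) * x = y * (x * x) := fun x y =>
    unop_injective (by simpa using (hl (unop x) (unop y)).symm)
  have h := congrArg unop (bR hl' hr' (op x) (op y) (op z))
  have e : unop (A (op x) (op y) (op z)) = A x y z := by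
    rw [A13 hl hr x y z]
    simp only [A, unop_sub, unop_mul, unop_op]
    abel
  rw [unop_mul, unop_mul, unop_mul, unop_mul, e] at h
  exact h

include hl hr in
/-- `[x, y]` anticommutes with `(x, y, z)` -/
lemma anti (x y z : R) : A x y z * C x y = -(C x y * A x y z) := by
  have h1 : A (A x y z) x y = -(A x y z * C x y) := by
    rw [A23 hr (A x y z) x y, A, ← bR hl hr, C, mul_sub]
  have h2 : A (A x y z) x y = C x y * A x y z := by
    rw [Acyc hl hr, A, ← bL hl hr, C, sub_mul]
  rw [h1] at h2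
  rw [← h2, neg_neg]

include hl hr in
/-- `(x, y, z)` anticommutes with `[[x, y], x]` -/
lemma mainR (x y z : R) : q x y z x y x = 0 := by
  set w := A x y z with hw
  set c := C x y with hc
  have hb : w * c = -(c * w) := anti hl hr x y z
  have hb1 : (x * w) * c = -(c * (x * w)) := by
    have h := anti hl hr x y (z * x)
    rwa [Acyc2 hl hr x y (z * x), M2 hl hr, ← Acyc2 hl hr x y z] at h
  have hb2 : (w * x) * c = -(c * (w * x)) := by
    have h := anti hl hr x y (x * z)
    rwa [Acyc2 hl hr x y (x * z), M1 hl hr, ← Acyc2 hl hr x y z] at h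
  -- associators
  have t1 : A w c x = w * c * x - w * (c * x) := rfl
  have t2 : A w x c = w * x * c - w * (x * c) := rfl
  have t3 : A c x w = c * x * w - c * (x * w) := rfl
  have t4 : A x c w = x * c * w - x * (c * w) := rfl
  have t5 : A x w c = x * w * c - x * (w * c) := rfl
  have t6 : A c w x = c * w * x - c * (w * x) := rfl
  have s2 : A w x c = -A w c x := A23 hr w x c
  have s3 : A c x w = A w c x := Acyc hl hr c x w ▸ (Acyc hl hr x w c ▸ rfl)
  have s4 : A x c w = -A w c x := by rw [A13 hl hr x c w]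
  have s5 : A x w c = A w c x := Acyc hl hr x w c
  have s6 : A c w x = -A w c x := A12 hl c w x
  have g1 : w * c * x = -(c * w * x) := by rw [hb, neg_mul]
  have g2 : x * (w * c) = -(x * (c * w)) := by rw [hb, mul_neg]
  rw [q, J, ← hw, ← hc]
  have e : w * C c x + C c x * w = (w * (c * x) - w * (x * c)) + (c * x * w - x * c * w) := by
    simp only [C, mul_sub, sub_mul]
  rw [e]
  rw [s2] at t2
  rw [s3] at t3
  rw [s4] at t4
  rw [s5] at t5
  rw [s6] at t6
  linear_combination (norm := abel) -t3 + t4 + t5 + hb1 - g2 + t1 - t2 + t6 + g1 - hb2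

/-- Linearization of a cubic function. -/
lemma lin3 (g : R → R → R → R) (h1 : ∀ a a' b c, g (a + a') b c = g a b c + g a' b c)
    (h2 : ∀ a b b' c, g a (b + b') c = g a b c + g a b' c)
    (h3 : ∀ a b c c', g a b (c + c') = g a b c + g a b c') (h : ∀ a, g a a a = 0) (a b c : R) :
    g a b c + g a c b + g b a c + g b c a + g c a b + g c b a = 0 := by
  have e1 := h (a + b + c)
  have e2 := h (a + b)
  have e3 := h (a + c)
  have e4 := h (b + c)
  simp only [h1, h2, h3, h] at e1 e2 e3 e4
  linear_combination (norm := abel) e1 - e2 - e3 - e4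

include hl hr in
/-- The full linearization of `mainR`. -/
lemma Rlin (a b c d e f : R) :
    q a d f b e c + q a d f c e b + q b d f a e c + q b d f c e a + q c d f a e b + q c d f b e a +
    (q a e f b d c + q a e f c d b + q b e f a d c + q b e f c d a + q c e f a d b + q c e f b d a)
      = 0 := by
  have h0 : ∀ x d e : R, q x d f x e x + q x e f x d x = 0 := by
    intro x d e
    have h := mainR hl hr x (d + e) f
    simp only [q_add2, q_add5] at h
    have hd := mainR hl hr x d f
    have he := mainR hl hr x e f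
    linear_combination (norm := abel) h - hd - he
  have h := lin3 (fun a b c => q a d f b e c + q a e f b d c)
    (by intro a a' b c; simp only [q_add1]; abel)
    (by intro a b b' c; simp only [q_add4]; abel)
    (by intro a b c c'; simp only [q_add6]; abel) (fun x => h0 x d e) a b c
  linear_combination (norm := abel) h

include hl hr in
lemma jac (a b c x y z : R) : q a b c x y z + q a b c y z x + q a b c z x y =
    (6 : ℤ) • p a b c x y z := by
  have e : C (C x y) z + C (C y z) x + C (C z x) y = (6 : ℤ) • A x y z := by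
    have h1 : C (C x y) z + C (C y z) x + C (C z x) y =
        A x y z - A y x z + A y z x - A z y x + A z x y - A x z y := by
      simp only [C, A, mul_sub, sub_mul]; abel
    rw [h1, A12 hl y x z, ← Acyc hl hr x y z, A13 hl hr z y x, ← Acyc2 hl hr x y z, A23 hr x z y]
    abel
  rw [q, q, q, ← J_add2, ← J_add2, e, p]
  simp only [J, mul_smul_comm, smul_mul_assoc, smul_add]

include hl in
lemma q12' (a b c x y z : R) : q a b c x y z = -q b a c x y z := by
  rw [q, A12 hl, J_neg1]; rfl
include hr in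
lemma q23' (a b c x y z : R) : q a b c x y z = -q a c b x y z := by
  rw [q, A23 hr, J_neg1]; rfl
include hl hr in
lemma q12 (a b c x y z : R) : q a b c x y z = -q b a c x y z := q12' hl a b c x y z
include hl hr in
lemma q23 (a b c x y z : R) : q a b c x y z = -q a c b x y z := q23' hr a b c x y z
include hl hr in
lemma q13 (a b c x y z : R) : q a b c x y z = -q c b a x y z := by
  rw [q, A13 hl hr, J_neg1]; rfl
include hl hr in
lemma qcyc (a b c x y z : R) : q a b c x y z = q b c a x y z := by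
  rw [q, Acyc hl hr]; rfl
include hl hr in
lemma qcyc2 (a b c x y z : R) : q a b c x y z = q c a b x y z := by
  rw [q, Acyc2 hl hr]; rfl

include hl hr in
theorem three_tors (a b c d e f : R) : (3 : ℤ) • tors a b c d e f = 0 := by
  rw [tors]
  linear_combination (norm := abel)
    (-1 : ℤ) • jac hl hr a b e c d f +
    (-1 : ℤ) • jac hl hr a c d b e f +
    (1 : ℤ) • jac hl hr a c e b d f +
    (1 : ℤ) • jac hl hr d e f a b c +
    (-1 : ℤ) • jac hl hr c e f a b d +
    (-2 : ℤ) • Rlin hl hr a c f b d e +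
    (-1 : ℤ) • Rlin hl hr a c d b f e +
    (2 : ℤ) • jac hl hr c d e a b f +
    (1 : ℤ) • Rlin hl hr a b f c e d +
    (-1 : ℤ) • Rlin hl hr a b e c f d +
    (-1 : ℤ) • Rlin hl hr a b f c d e +
    (1 : ℤ) • Rlin hl hr a b d c f e +
    (-1 : ℤ) • jac hl hr b d e a c f +
    (1 : ℤ) • jac hl hr a c f b d e +
    (-1 : ℤ) • Rlin hl hr a b e c d f +
    (1 : ℤ) • Rlin hl hr a b d c e f +
    (1 : ℤ) • jac hl hr b c f a d e +
    (-2 : ℤ) • Rlin hl hr a b c d f e +
    (-1 : ℤ) • jac hl hr b c e a d f +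
    (-1 : ℤ) • jac hl hr b c d a e f +
    (1 : ℤ) • jac hl hr a e f b c d +
    (2 : ℤ) • q_swap45 d e f c a b +
    (4 : ℤ) • q_swap45 c d e f a b +
    (-2 : ℤ) • q_swap45 b c e f a d +
    (-2 : ℤ) • q_swap45 c e f d a b +
    (1 : ℤ) • q_swap45 a b e f c d +
    (1 : ℤ) • q_swap45 a c d f b e +
    (-1 : ℤ) • q_swap45 a c e f b d +
    (6 : ℤ) • p_comm d e f a b c +
    (-6 : ℤ) • p_comm c e f a b d +
    (2 : ℤ) • q_swap45 a d e c b f +
    (2 : ℤ) • q_swap45 a b e f d c +
    (2 : ℤ) • q_swap45 a d e f b c +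
    (2 : ℤ) • q12 hl hr c b e a d f +
    (2 : ℤ) • q12 hl hr c b e f d a +
    (-2 : ℤ) • q_swap45 b c e f d a +
    (2 : ℤ) • q_swap45 c d e f b a +
    (2 : ℤ) • qcyc hl hr f b e a d c +
    (2 : ℤ) • qcyc hl hr f d e a b c +
    (2 : ℤ) • qcyc hl hr f b e c d a +
    (2 : ℤ) • qcyc hl hr f d e c b a +
    (2 : ℤ) • q_swap45 d e f c b a +
    (1 : ℤ) • q23 hl hr a f e c b d +
    (-1 : ℤ) • q_swap45 a e f c b d +
    (1 : ℤ) • q23 hl hr a f e d b c +
    (-1 : ℤ) • q_swap45 a e f d b c +
    (1 : ℤ) • q12 hl hr c b e a f d +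
    (1 : ℤ) • q23 hl hr c f e a b d +
    (1 : ℤ) • q12 hl hr c b e d f a +
    (1 : ℤ) • q23 hl hr c f e d b a +
    (-1 : ℤ) • q_swap45 c e f d b a +
    (1 : ℤ) • q12 hl hr d b e a f c +
    (1 : ℤ) • q23 hl hr d f e a b c +
    (1 : ℤ) • q12 hl hr d b e c f a +
    (1 : ℤ) • q23 hl hr d f e c b a +
    (-1 : ℤ) • q_swap45 d e f c b a +
    (12 : ℤ) • p_comm c d e a b f +
    (-1 : ℤ) • q23 hl hr a e d b c f +
    (-1 : ℤ) • q_swap45 a c d f e b +
    (-1 : ℤ) • q23 hl hr a e d f c b +
    (1 : ℤ) • q_swap45 a d e f c b +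
    (-1 : ℤ) • q23 hl hr b e d a c f +
    (-1 : ℤ) • q_swap45 b c d f e a +
    (-1 : ℤ) • q23 hl hr b e d f c a +
    (1 : ℤ) • q_swap45 b d e f c a +
    (-1 : ℤ) • qcyc hl hr f c d a e b +
    (-1 : ℤ) • q13 hl hr f e d a c b +
    (-1 : ℤ) • qcyc hl hr f c d b e a +
    (-1 : ℤ) • q13 hl hr f e d b c a +
    (1 : ℤ) • q23 hl hr a f d b c e +
    (1 : ℤ) • q23 hl hr a f d e c b +
    (-1 : ℤ) • q_swap45 a d f e c b +
    (1 : ℤ) • q23 hl hr b f d a c e +
    (1 : ℤ) • q23 hl hr b f d e c a +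
    (-1 : ℤ) • q_swap45 b d f e c a +
    (1 : ℤ) • qcyc hl hr e c d a f b +
    (1 : ℤ) • qcyc2 hl hr e f d a c b +
    (1 : ℤ) • qcyc hl hr e c d b f a +
    (1 : ℤ) • qcyc2 hl hr e f d b c a +
    (1 : ℤ) • q_swap45 a c e f d b +
    (1 : ℤ) • q_swap45 a d e f c b +
    (1 : ℤ) • q_swap45 b c e f d a +
    (1 : ℤ) • q_swap45 b d e f c a +
    (1 : ℤ) • qcyc hl hr f c e a d b +
    (1 : ℤ) • qcyc hl hr f d e a c b +
    (1 : ℤ) • qcyc hl hr f c e b d a +
    (1 : ℤ) • qcyc hl hr f d e b c a +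
    (-1 : ℤ) • q23 hl hr a f e b c d +
    (-1 : ℤ) • q23 hl hr a f e d c b +
    (1 : ℤ) • q_swap45 a e f d c b +
    (-1 : ℤ) • q23 hl hr b f e a c d +
    (-1 : ℤ) • q23 hl hr b f e d c a +
    (1 : ℤ) • q_swap45 b e f d c a +
    (-1 : ℤ) • q12 hl hr d c e a f b +
    (-1 : ℤ) • q23 hl hr d f e a c b +
    (-1 : ℤ) • q12 hl hr d c e b f a +
    (-1 : ℤ) • q23 hl hr d f e b c a +
    (1 : ℤ) • q_swap45 b d e f a c +
    (-6 : ℤ) • p_comm b d e a c f +
    (-1 : ℤ) • q_swap45 a c f e b d +
    (1 : ℤ) • q_swap45 a c f e d b +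
    (1 : ℤ) • q_swap45 a d f e c b +
    (1 : ℤ) • q_swap45 b c f e d a +
    (1 : ℤ) • q_swap45 b d f e c a +
    (1 : ℤ) • q12 hl hr e c f a d b +
    (1 : ℤ) • q12 hl hr e d f a c b +
    (1 : ℤ) • q12 hl hr e c f b d a +
    (1 : ℤ) • q12 hl hr e d f b c a +
    (-1 : ℤ) • q_swap45 a e f d c b +
    (-1 : ℤ) • q_swap45 b e f d c a +
    (-1 : ℤ) • q12 hl hr d c f a e b +
    (-1 : ℤ) • q12 hl hr d c f b e a +
    (-1 : ℤ) • q_swap45 b c f e a d +
    (6 : ℤ) • p_comm b c f a d e +
    (2 : ℤ) • q23 hl hr a f e b d c +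
    (2 : ℤ) • q23 hl hr a f e c d b +
    (2 : ℤ) • q23 hl hr b f e a d c +
    (2 : ℤ) • q23 hl hr b f e c d a +
    (2 : ℤ) • q23 hl hr c f e a d b +
    (2 : ℤ) • q23 hl hr c f e b d a +
    (-6 : ℤ) • p_comm b c e a d f +
    (1 : ℤ) • q_swap45 b c d f a e +
    (-6 : ℤ) • p_comm b c d a e f +
    (-1 : ℤ) • q_swap45 a e f d b c

end Alt

end Pool.Agent.H772R4.AltId
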