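import Pool.Agent.H772R4.AltData
import Pool.Agent.H772R4.AltId
import Pool.Agent.H772R3.JordanSemi

set_option autoImplicit false

/-!
The Grassmann envelope of the finite superalgebra is an alternative ring.
-/

namespace Pool.Agent.H772R4.AltModel

open Pool.Agent.H772R4.AltData Pool.Agent.H772R4.AltId Pool.Agent.H772R3.Ext
open Pool.Agent.H772R3.JordanModel (ξ Ξ Ξ_cons Ξ_nil Ξ_append Ξ_ne_zero)

/-- the exterior algebra over the field with three elements -/
abbrev Lm : Type := Λ (ZMod 3) (Pool.Agent.H772R3.JordanModel.V (ZMod 3))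

lemma three_smul (z : Lm) : (3 : ℕ) • z = 0 := by
  have h : (3 : ZMod 3) = 0 := by decide
  have h2 : ((3 : ℕ) : ZMod 3) • z = (3 : ℕ) • z := Nat.cast_smul_eq_nsmul _ _ _
  rw [← h2]
  have : ((3 : ℕ) : ZMod 3) = 0 := by decide
  rw [this, zero_smul]

lemma neg_eq_two' {M : Type} [AddCommGroup M] (h : ∀ z : M, (3 : ℕ) • z = 0) (z : M) :
    -z = (2 : ℕ) • z := by
  have h1 := h z
  rw [show (3 : ℕ) = 2 + 1 from rfl, add_smul, one_smul] at h1
  exact (eq_neg_of_add_eq_zero_left h1).symm

/-- The underlying group. -/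
def G : Type := ℕ →₀ Lm

noncomputable instance : AddCommGroup G := inferInstanceAs (AddCommGroup (ℕ →₀ Lm))

/-- monomials -/
noncomputable def sg1 (i : ℕ) : Lm →+ G := Finsupp.singleAddHom i

/-- coordinates -/
noncomputable def co (k : ℕ) : G →+ Lm := Finsupp.applyAddHom (M := Lm) k

lemma G_ext {x y : G} (h : ∀ k, co k x = co k y) : x = y :=
  Finsupp.ext (M := Lm) (f := x) (g := y) h

lemma three_smulG (z : G) : (3 : ℕ) • z = 0 := by
  apply G_ext
  intro k
  rw [map_nsmul, three_smul, map_zero]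

/-- linear combinations with a common coefficient -/
noncomputable def vec (p : List (ℕ × ℕ)) (ν : Lm) : G := (p.map fun e => sg1 e.1 (e.2 • ν)).sum

lemma vec_nil (ν : Lm) : vec [] ν = 0 := rfl
lemma vec_cons (e : ℕ × ℕ) (p : List (ℕ × ℕ)) (ν : Lm) :
    vec (e :: p) ν = sg1 e.1 (e.2 • ν) + vec p ν := rfl
lemma vec_append (p p' : List (ℕ × ℕ)) (ν : Lm) : vec (p ++ p') ν = vec p ν + vec p' ν := by
  rw [vec, List.map_append, List.sum_append]; rfl
lemma vec_add (p : List (ℕ × ℕ)) (ν ν' : Lm) : vec p (ν + ν') = vec p ν + vec p ν' := by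
  induction p with
  | nil => simp [vec_nil]
  | cons e p ih => rw [vec_cons, vec_cons, vec_cons, ih, smul_add, map_add]; abel
lemma vec_scale (c : ℕ) (p : List (ℕ × ℕ)) (ν : Lm) : vec (scale c p) ν = vec p (c • ν) := by
  induction p with
  | nil => rfl
  | cons e p ih =>
    have : scale c (e :: p) = (e.1, c * e.2) :: scale c p := rfl
    rw [this, vec_cons, vec_cons, ih, smul_smul, mul_comm]
lemma vec_nsmul (c : ℕ) (p : List (ℕ × ℕ)) (ν : Lm) : vec p (c • ν) = c • vec p ν := by
  induction p with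
  | nil => simp [vec_nil]
  | cons e p ih => rw [vec_cons, vec_cons, ih, smul_add, ← map_nsmul, smul_comm]
lemma vec_zero (p : List (ℕ × ℕ)) : vec p 0 = 0 := by
  induction p with
  | nil => rfl
  | cons e p ih => rw [vec_cons, ih, smul_zero, map_zero, add_zero]

lemma sg1_apply (i k : ℕ) (ν : Lm) : co k (sg1 i ν) = if i = k then ν else 0 := by
  change (Finsupp.single i ν) k = _
  rw [Finsupp.single_apply]

lemma coef_cons (k : ℕ) (e : ℕ × ℕ) (p : List (ℕ × ℕ)) :
    coef k (e :: p) = if e.1 = k then e.2 + coef k p else coef k p := by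
  have : coef k (e :: p) = bif Nat.beq e.1 k then e.2 + coef k p else coef k p := rfl
  rw [this]
  by_cases h : e.1 = k
  · rw [if_pos h, Nat.beq_eq.mpr h]; rfl
  · have h2 : Nat.beq e.1 k = false := by
      rw [← Bool.not_eq_true, Nat.beq_eq]; exact h
    rw [if_neg h, h2]; rfl

lemma vec_apply (p : List (ℕ × ℕ)) (ν : Lm) (k : ℕ) : co k (vec p ν) = coef k p • ν := by
  induction p with
  | nil => rw [vec_nil, map_zero]; exact (zero_smul ℕ ν).symm
  | cons e p ih =>
    rw [vec_cons, map_add, ih, sg1_apply, coef_cons]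
    split_ifs with h
    · rw [add_smul]
    · rw [zero_add]

lemma smul_of_mod {c : ℕ} (h : c % 3 = 0) (ν : Lm) : c • ν = 0 := by
  obtain ⟨d, rfl⟩ := Nat.dvd_of_mod_eq_zero h
  rw [mul_comm, mul_smul, three_smul, smul_zero]

lemma vec_of_isZ {p : List (ℕ × ℕ)} (h : isZ p = true) (ν : Lm) : vec p ν = 0 := by
  apply G_ext
  intro k
  rw [vec_apply, map_zero]
  apply smul_of_mod
  rw [isZ, List.all_eq_true] at h
  by_cases hk : ∃ e ∈ p, e.1 = k
  · obtain ⟨e, he, rfl⟩ := hk
    exact Nat.beq_eq.mp (h e he)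
  · have : coef k p = 0 := by
      clear h
      induction p with
      | nil => rfl
      | cons e p ih =>
        rw [coef_cons, if_neg, ih]
        · rintro ⟨e', he', h⟩
          exact hk ⟨e', List.mem_cons_of_mem _ he', h⟩
        · intro h
          exact hk ⟨e, List.mem_cons_self, h⟩
    rw [this]

/-- `vec` as a homomorphism -/
noncomputable def vecHom (p : List (ℕ × ℕ)) : Lm →+ G := AddMonoidHom.mk' (vec p) (vec_add p)

/-- left multiplication by a monomial -/
noncomputable def mulAux (i : ℕ) (l : Lm) : G →+ G :=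
  Finsupp.liftAddHom (α := ℕ) (M := Lm) (N := G) fun j =>
    (vecHom (mulT i j)).comp (AddMonoidHom.mulLeft l)

lemma mulAux_sg1 (i j : ℕ) (l m : Lm) : mulAux i l (sg1 j m) = vec (mulT i j) (l * m) := by
  rw [mulAux]
  exact Finsupp.liftAddHom_apply_single _ _ _

lemma G_hom_ext {f g : G →+ G} (h : ∀ i l, f (sg1 i l) = g (sg1 i l)) : f = g :=
  Finsupp.addHom_ext (M := Lm) (N := G) h

/-- The multiplication. -/
noncomputable def mulG : G →+ G →+ G :=
  Finsupp.liftAddHom (α := ℕ) (M := Lm) (N := G →+ G) fun i =>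
    AddMonoidHom.mk' (mulAux i) (by
      intro l l'
      apply G_hom_ext
      intro j m
      rw [AddMonoidHom.add_apply, mulAux_sg1, mulAux_sg1, mulAux_sg1, add_mul, vec_add])

lemma mulG_sg1 (i j : ℕ) (l m : Lm) : mulG (sg1 i l) (sg1 j m) = vec (mulT i j) (l * m) := by
  have : mulG (sg1 i l) = mulAux i l := by
    rw [mulG]
    exact Finsupp.liftAddHom_apply_single _ _ _
  rw [this, mulAux_sg1]

lemma mulG_vec_left (p : List (ℕ × ℕ)) (k : ℕ) (l m : Lm) :
    mulG (vec p l) (sg1 k m) = vec (mulR p k) (l * m) := by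
  induction p with
  | nil => rw [vec_nil, map_zero]; rfl
  | cons e p ih =>
    have : mulR (e :: p) k = scale e.2 (mulT e.1 k) ++ mulR p k := by
      rw [mulR, List.flatMap_cons]; rfl
    rw [vec_cons, map_add, AddMonoidHom.add_apply, ih, mulG_sg1, this, vec_append, vec_scale,
      smul_mul_assoc]

lemma mulG_vec_right (p : List (ℕ × ℕ)) (i : ℕ) (l m : Lm) :
    mulG (sg1 i l) (vec p m) = vec (mulL i p) (l * m) := by
  induction p with
  | nil => rw [vec_nil, map_zero]; rfl
  | cons e p ih =>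
    have : mulL i (e :: p) = scale e.2 (mulT i e.1) ++ mulL i p := by
      rw [mulL, List.flatMap_cons]; rfl
    rw [vec_cons, map_add, ih, mulG_sg1, this, vec_append, vec_scale, mul_smul_comm]

/-- the associator -/
noncomputable def ascG (x y z : G) : G := mulG (mulG x y) z - mulG x (mulG y z)

lemma ascG_sg1 (i j k : ℕ) (l m n : Lm) :
    ascG (sg1 i l) (sg1 j m) (sg1 k n) = vec (asc i j k) (l * m * n) := by
  rw [ascG, mulG_sg1, mulG_sg1, mulG_vec_left, mulG_vec_right, asc, vec_append, vec_scale,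
    vec_nsmul, ← mul_assoc, sub_eq_add_neg]
  rw [neg_eq_two' three_smulG]

lemma ascG_add1 (x x' y z : G) : ascG (x + x') y z = ascG x y z + ascG x' y z := by
  simp only [ascG, map_add, AddMonoidHom.add_apply]; abel
lemma ascG_add2 (x y y' z : G) : ascG x (y + y') z = ascG x y z + ascG x y' z := by
  simp only [ascG, map_add, AddMonoidHom.add_apply]; abel
lemma ascG_add3 (x y z z' : G) : ascG x y (z + z') = ascG x y z + ascG x y z' := by
  simp only [ascG, map_add]; abel

/-- homogeneous elements of the exterior algebra -/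
noncomputable def H (i : ℕ) : Submodule (ZMod 3) Lm :=
  if pr i = 0 then E0 (ZMod 3) (Pool.Agent.H772R3.JordanModel.V (ZMod 3))
  else E1 (ZMod 3) (Pool.Agent.H772R3.JordanModel.V (ZMod 3))

lemma pr_cases (i : ℕ) : pr i = 0 ∨ pr i = 1 := by
  rw [pr]; omega

lemma neg_eq_two (z : Lm) : -z = (2 : ℕ) • z := neg_eq_two' three_smul z

lemma H_comm {i j : ℕ} {l m : Lm} (hl : l ∈ H i) (hm : m ∈ H j) : m * l = sg i j • (l * m) := by
  rw [H] at hl hm
  rcases pr_cases i with hi | hi <;> rcases pr_cases j with hj | hj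
  · rw [if_pos hi] at hl
    have : sg i j = 1 := by rw [sg, hi, hj]; rfl
    rw [this, one_smul, even_comm hl]
  · rw [if_pos hi] at hl
    have : sg i j = 1 := by rw [sg, hi, hj]; rfl
    rw [this, one_smul, even_comm hl]
  · rw [if_pos hj] at hm
    have : sg i j = 1 := by rw [sg, hi, hj]; rfl
    rw [this, one_smul, even_comm hm]
  · rw [if_neg (by omega)] at hl hm
    have : sg i j = 2 := by rw [sg, hi, hj]; rfl
    rw [this, odd_anti hm hl, neg_eq_two]

lemma H_mul {i j k : ℕ} (hk : pr k = (pr i + pr j) % 2) {l m : Lm} (hl : l ∈ H i) (hm : m ∈ H j) :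
    l * m ∈ H k := by
  rw [H] at hl hm ⊢
  rcases pr_cases i with hi | hi <;> rcases pr_cases j with hj | hj
  · rw [if_pos hi] at hl
    rw [if_pos hj] at hm
    rw [if_pos (by rw [hk, hi, hj])]
    exact even_mul_even hl hm
  · rw [if_pos hi] at hl
    rw [if_neg (by omega)] at hm
    rw [if_neg (by rw [hk, hi, hj]; omega)]
    exact even_mul_odd hl hm
  · rw [if_neg (by omega)] at hl
    rw [if_pos hj] at hm
    rw [if_neg (by rw [hk, hi, hj]; omega)]
    rw [← even_comm hm]
    exact even_mul_odd hm hl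
  · rw [if_neg (by omega)] at hl hm
    rw [if_pos (by rw [hk, hi, hj])]
    exact odd_mul_odd hl hm

/-! ### the checks -/

lemma chk1_true : chk1 = true := by decide +kernel
lemma chk2_true : chk2 = true := by decide +kernel
lemma chk3_true : chk3 = true := by decide +kernel

lemma mem_class {i : ℕ} (hi : i < 102) : ∃ c ∈ classes, i ∈ mem c ∧ dg i = c.1 := by
  have h := chk1_true
  rw [chk1, List.all_eq_true] at h
  have h1 := h i (List.mem_range.mpr hi)
  rw [List.any_eq_true] at h1
  obtain ⟨c, hc, h2⟩ := h1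
  rw [Bool.and_eq_true, Bool.and_eq_true] at h2
  obtain ⟨h3, h4, h5⟩ := h2
  have h4' : c.2.1 ≤ i := Nat.le_of_ble_eq_true h4
  have h5' : i < c.2.1 + c.2.2 := Nat.le_of_ble_eq_true h5
  refine ⟨c, hc, ?_, Nat.beq_eq.mp h3⟩
  rw [mem, List.mem_map]
  exact ⟨i - c.2.1, List.mem_range.mpr (by omega), by omega⟩

lemma grade {i j : ℕ} (hi : i < 102) (hj : j < 102) {e : ℕ × ℕ} (he : e ∈ mulT i j) :
    e.1 < 102 ∧ dg e.1 = dg i + dg j ∧ pr e.1 = (pr i + pr j) % 2 := by
  have hok : ok (dg i + dg j) = true := by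
    by_contra h
    rw [Bool.not_eq_true] at h
    rw [mulT, h] at he
    simp at he
  obtain ⟨c1, hc1, hi1, hd1⟩ := mem_class hi
  obtain ⟨c2, hc2, hj1, hd2⟩ := mem_class hj
  have h := chk2_true
  rw [chk2, List.all_eq_true] at h
  have h1 := h c1 hc1
  rw [List.all_eq_true] at h1
  have h2 := h1 c2 hc2
  rw [← hd1, ← hd2, hok, Bool.not_true, Bool.false_or, List.all_eq_true] at h2
  have h3 := h2 i hi1
  rw [List.all_eq_true] at h3
  have h4 := h3 j hj1
  rw [List.all_eq_true] at h4
  have h5 := h4 e he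
  rw [Bool.and_eq_true, Bool.and_eq_true] at h5
  exact ⟨Nat.le_of_ble_eq_true h5.1, Nat.beq_eq.mp h5.2.1, Nat.beq_eq.mp h5.2.2⟩

lemma asc_nil {i j k : ℕ} (hi : i < 102) (hj : j < 102) (hk : k < 102)
    (h : ok (dg i + dg j + dg k) = false) : asc i j k = [] := by
  have h1 : mulR (mulT i j) k = [] := by
    rw [mulR, List.flatMap_eq_nil_iff]
    intro e he
    have h2 := (grade hi hj he).2.1
    have h3 : mulT e.1 k = [] := by rw [mulT, h2, h]; rfl
    rw [h3]; rfl
  have h2 : mulL i (mulT j k) = [] := by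
    rw [mulL, List.flatMap_eq_nil_iff]
    intro e he
    have h2 := (grade hj hk he).2.1
    have h3 : mulT i e.1 = [] := by rw [mulT, h2, ← add_assoc, h]; rfl
    rw [h3]; rfl
  rw [asc, h1, h2]; rfl

lemma rel_true {i j k : ℕ} (hi : i < 102) (hj : j < 102) (hk : k < 102) : rel i j k = true := by
  by_cases hok : ok (dg i + dg j + dg k) = true
  · obtain ⟨c1, hc1, hi1, hd1⟩ := mem_class hi
    obtain ⟨c2, hc2, hj1, hd2⟩ := mem_class hj
    obtain ⟨c3, hc3, hk1, hd3⟩ := mem_class hk
    have h := chk3_true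
    rw [chk3, List.all_eq_true] at h
    have h1 := h c1 hc1
    rw [List.all_eq_true] at h1
    have h2 := h1 c2 hc2
    rw [List.all_eq_true] at h2
    have h3 := h2 c3 hc3
    rw [← hd1, ← hd2, ← hd3, hok, Bool.not_true, Bool.false_or, List.all_eq_true] at h3
    have h4 := h3 i hi1
    rw [List.all_eq_true] at h4
    have h5 := h4 j hj1
    rw [List.all_eq_true] at h5
    exact h5 k hk1
  · rw [Bool.not_eq_true] at hok
    have h1 := asc_nil hi hj hk hok
    have h2 := asc_nil hj hi hk (by rw [add_comm (dg j)]; exact hok)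
    have h3 := asc_nil hi hk hj (by rw [add_assoc, add_comm (dg k), ← add_assoc]; exact hok)
    rw [rel, h1, h2, h3]
    rfl

/-- homogeneous monomials -/
def S : Set G := {x | ∃ i < 102, ∃ l ∈ H i, x = sg1 i l}

/-- the Grassmann envelope -/
noncomputable def Env : AddSubgroup G := AddSubgroup.closure S

lemma skew1 {x y z : G} (hx : x ∈ S) (hy : y ∈ S) (hz : z ∈ S) : ascG x y z + ascG y x z = 0 := by
  obtain ⟨i, hi, l, hl, rfl⟩ := hx
  obtain ⟨j, hj, m, hm, rfl⟩ := hy
  obtain ⟨k, hk, n, hn, rfl⟩ := hz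
  have h := rel_true hi hj hk
  rw [rel, Bool.and_eq_true] at h
  have h1 := vec_of_isZ h.1 (l * m * n)
  rw [vec_append, vec_scale] at h1
  rw [ascG_sg1, ascG_sg1, H_comm hl hm, smul_mul_assoc, h1]

lemma skew2 {x y z : G} (hx : x ∈ S) (hy : y ∈ S) (hz : z ∈ S) : ascG x y z + ascG x z y = 0 := by
  obtain ⟨i, hi, l, hl, rfl⟩ := hx
  obtain ⟨j, hj, m, hm, rfl⟩ := hy
  obtain ⟨k, hk, n, hn, rfl⟩ := hz
  have h := rel_true hi hj hk
  rw [rel, Bool.and_eq_true] at h
  have h1 := vec_of_isZ h.2 (l * m * n)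
  rw [vec_append, vec_scale] at h1
  rw [ascG_sg1, ascG_sg1, mul_assoc l n m, H_comm hm hn, mul_smul_comm, ← mul_assoc, h1]

lemma ext1 (f : G → G) (h1 : ∀ x x', f (x + x') = f x + f x') (h : ∀ x ∈ S, f x = 0) :
    ∀ x ∈ Env, f x = 0 := by
  intro x hx
  have : Env ≤ (AddMonoidHom.mk' f h1).ker := by
    rw [Env, AddSubgroup.closure_le]
    intro y hy
    exact h y hy
  exact this hx

lemma ext3 (f : G → G → G → G) (h1 : ∀ x x' y z, f (x + x') y z = f x y z + f x' y z)
    (h2 : ∀ x y y' z, f x (y + y') z = f x y z + f x y' z)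
    (h3 : ∀ x y z z', f x y (z + z') = f x y z + f x y z')
    (h : ∀ x ∈ S, ∀ y ∈ S, ∀ z ∈ S, f x y z = 0) :
    ∀ x ∈ Env, ∀ y ∈ Env, ∀ z ∈ Env, f x y z = 0 := by
  intro x hx y hy z hz
  refine ext1 (fun z => f x y z) (fun z z' => h3 x y z z') (fun z hz => ?_) z hz
  refine ext1 (fun y => f x y z) (fun y y' => h2 x y y' z) (fun y hy => ?_) y hy
  exact ext1 (fun x => f x y z) (fun x x' => h1 x x' y z) (fun x hx => h x hx y hy z hz) x hx

lemma skew1' {x y z : G} (hx : x ∈ Env) (hy : y ∈ Env) (hz : z ∈ Env) :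
    ascG x y z + ascG y x z = 0 :=
  ext3 (fun x y z => ascG x y z + ascG y x z)
    (by intro x x' y z; simp only [ascG_add1, ascG_add2]; abel)
    (by intro x y y' z; simp only [ascG_add1, ascG_add2]; abel)
    (by intro x y z z'; simp only [ascG_add3]; abel)
    (fun _ hx _ hy _ hz => skew1 hx hy hz) x hx y hy z hz

lemma skew2' {x y z : G} (hx : x ∈ Env) (hy : y ∈ Env) (hz : z ∈ Env) :
    ascG x y z + ascG x z y = 0 :=
  ext3 (fun x y z => ascG x y z + ascG x z y)
    (by intro x x' y z; simp only [ascG_add1]; abel)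
    (by intro x y y' z; simp only [ascG_add2, ascG_add3]; abel)
    (by intro x y z z'; simp only [ascG_add2, ascG_add3]; abel)
    (fun _ hx _ hy _ hz => skew2 hx hy hz) x hx y hy z hz

lemma eq_zero_of_double {x : G} (h : x + x = 0) : x = 0 := by
  have h3 := three_smulG x
  rw [show (3 : ℕ) = 2 + 1 from rfl, add_smul, one_smul, two_nsmul, h, zero_add] at h3
  exact h3

lemma vec_mem {p : List (ℕ × ℕ)} {n : Lm} (h : ∀ e ∈ p, e.1 < 102 ∧ n ∈ H e.1) :
    vec p n ∈ Env := by
  induction p with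
  | nil => exact AddSubgroup.zero_mem _
  | cons e p ih =>
    rw [vec_cons]
    refine AddSubgroup.add_mem _ ?_ (ih fun e' he' => h e' (List.mem_cons_of_mem _ he'))
    obtain ⟨h1, h2⟩ := h e List.mem_cons_self
    exact AddSubgroup.subset_closure ⟨e.1, h1, e.2 • n, Submodule.smul_of_tower_mem _ _ h2, rfl⟩

lemma mul_mem_S {x y : G} (hx : x ∈ S) (hy : y ∈ S) : mulG x y ∈ Env := by
  obtain ⟨i, hi, l, hl, rfl⟩ := hx
  obtain ⟨j, hj, m, hm, rfl⟩ := hy
  rw [mulG_sg1]
  apply vec_mem
  intro e he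
  obtain ⟨h1, _, h2⟩ := grade hi hj he
  exact ⟨h1, H_mul h2 hl hm⟩

lemma mul_mem' {x y : G} (hx : x ∈ Env) (hy : y ∈ Env) : mulG x y ∈ Env := by
  have h1 : ∀ x ∈ S, ∀ y ∈ Env, mulG x y ∈ Env := by
    intro x hx
    have : Env ≤ Env.comap (mulG x) := by
      conv_lhs => rw [Env]
      rw [AddSubgroup.closure_le]
      intro y hy
      exact mul_mem_S hx hy
    exact fun y hy => this hy
  have : Env ≤ Env.comap (mulG.flip y) := by
    conv_lhs => rw [Env]
    rw [AddSubgroup.closure_le]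
    intro x hx
    exact h1 x hx y hy
  exact this hx

/-- `G` with its multiplication -/
noncomputable instance instMulG : Mul G := ⟨fun x y => mulG x y⟩

noncomputable instance : NonUnitalNonAssocRing G where
  left_distrib x y z := map_add (mulG x) y z
  right_distrib x y z := by
    change mulG (x + y) z = mulG x z + mulG y z
    rw [map_add]; rfl
  zero_mul x := by
    change mulG 0 x = 0
    rw [map_zero]; rfl
  mul_zero x := map_zero (mulG x)

/-- The alternative ring. -/
def E : Type := Env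

noncomputable instance : AddCommGroup E := inferInstanceAs (AddCommGroup Env)

noncomputable instance instMulE : Mul E := ⟨fun x y => ⟨mulG x.1 y.1, mul_mem' x.2 y.2⟩⟩

/-- the inclusion -/
def inc (x : E) : G := x.1

lemma inc_inj {x y : E} (h : inc x = inc y) : x = y := Subtype.ext h
lemma inc_mul (x y : E) : inc (x * y) = inc x * inc y := rfl
lemma inc_add (x y : E) : inc (x + y) = inc x + inc y := rfl
lemma inc_zero : inc 0 = 0 := rfl

noncomputable instance : NonUnitalNonAssocRing E where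
  left_distrib x y z := inc_inj (mul_add (inc x) (inc y) (inc z))
  right_distrib x y z := inc_inj (add_mul (inc x) (inc y) (inc z))
  zero_mul x := inc_inj (zero_mul (inc x))
  mul_zero x := inc_inj (mul_zero (inc x))

/-- the inclusion as a homomorphism -/
def incHom : E →ₙ+* G where
  toFun := inc
  map_mul' := inc_mul
  map_zero' := inc_zero
  map_add' := inc_add

theorem alt_left (x y : E) : (x * x) * y = x * (x * y) := by
  apply inc_inj
  have h := eq_zero_of_double (skew1' x.2 x.2 y.2)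
  exact sub_eq_zero.mp h

theorem alt_right (x y : E) : (y * x) * x = y * (x * x) := by
  apply inc_inj
  have h := eq_zero_of_double (skew2' y.2 x.2 x.2)
  exact sub_eq_zero.mp h

end Pool.Agent.H772R4.AltModel
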